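import Pool.Agent.Results.MP_6cf96a_nt.RankTailsInShortSquares
import Pool.Agent.X257.AE.BoxTails
import Pool.Agent.X257.AE.BoxBad
import Pool.Agent.X257.AE.ApproxZero

/-!
# Large ranks over the good rational approximations of almost every real number are very rare

Let `F_k = a_k ∏_i (l k i) ^ (m k i)`, `k = 0, 1, 2`, be binary forms with `F_0 - F_1 = F_2`, products of
pairwise non-proportional linear forms `l k i` (`i = 1, …, n`, `n > 0` even) with odd exponents. The curves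
`E_t : y² = x (x - F_0 (u, v)) (x - F_1 (u, v))`, `t = u / v` in lowest terms, are the fibres of an elliptic
surface over the projective line with full rational 2-torsion. For almost every real number `α`, for ALL
these surfaces, we consider the fibres over the rational numbers `t = u / v` with `|α - t| ≤ c / v²`, in
particular over all the convergents of the continued fraction of `α`. These `t` are counted with the
weight `1 / log v`; for almost every `α` the sum of the weights of the convergents with `v ≤ Q` is of the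
order of magnitude `log log Q`. Let `N (t)` be the sum of the rank of `E_t` and of the corank of the 2-primary
part of its Tate-Shafarevich group. We show:

* the upper density of the `t` with `N (t) ≥ r` decays faster than `A ^ (-r)`, for every `A`, uniformly in `α`
  in bounded sets;
* if `h (v)` tends to infinity, however slowly, then `N (t) ≤ h (v)` for all these `t` except a set of density
  zero;
* for every `A` the average of `A ^ N (t)` over these `t` is bounded, if the elements of a set of rational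
  numbers are omitted which does not depend on `α` and has density zero for almost all `α`.

The starting result `MP_788af2_nt.RationalApproximations` bounds the average of `2 ^ (rank / 2)`.

The proof: weighted moments of all orders of the 2-Selmer groups over squares far away from the origin, and
the rarity of the pairs of small weight (starting files `TH344.BF`, `X257.AE.BoxTails`, `X257.AE.BoxBad`),
and laws of large numbers for functions on the good approximations (`X257.AE.Approx`,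
`X257.AE.ApproxZero`).
-/

set_option autoImplicit false

namespace Pool.Agent.Results.MP_788af2_nt.ApproximationTails

open Finset Filter MeasureTheory
open Pool.Agent.Results.MP_788af2_nt.RationalApproximations (E Surface Approx finite_approx)
open Pool.Agent.Results.MP_6cf96a_nt.RankTailsInShortSquares (rank corank famS two_pow_le)
open Pool.Agent.X257.AE (indP indP_nonneg nd BoxAvg Ap)
open Pool.Agent.TH344.BF Pool.Agent.TH344.DT Pool.Agent.W307.RT

/-- the sum of the rank of the fibre at `t` and of the corank of the 2-primary part of its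
Tate-Shafarevich group -/
noncomputable def total (S : Surface) (t : ℚ) : ℕ := rank (S.fib t) + corank (S.fib t)

/-- the good approximations `t` of `α` with denominator `2 ≤ v ≤ Q` at which the fibre is an elliptic
curve, and which are in the set `X` -/
def Good (S : Surface) (α : ℝ) (c Q : ℕ) (X : Set ℚ) : Set ℚ :=
  {t | t ∈ Approx α c Q ∧ S.Smooth t ∧ t ∈ X}

/-- the pairs of small weight -/
def bad (S : Surface) (T : Finset (Fin 3 × Fin S.n → ℝ)) : Set (ℤ × ℤ) :=
  {t : ℤ × ℤ | (∀ j, fv (fun j => (S.l j).1) (fun j => (S.l j).2) t.1 t.2 j ≠ 0) ∧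
    rho T (omB (fun j => (S.l j).1) (fun j => (S.l j).2) t) < 1}

theorem finite_good (S : Surface) (α : ℝ) (c Q : ℕ) (X : Set ℚ) : (Good S α c Q X).Finite :=
  (finite_approx α c Q).subset fun _ h => h.1

/-- one fibre -/
theorem pow_le {S : Surface} (hS : S.Ok) {k : ℕ} {T : Finset (Fin 3 × Fin S.n → ℝ)} {t : ℚ}
    (ht : S.Smooth t) (hb : nd t ∉ bad S T) :
    ((2 : ℝ) ^ k) ^ total S t ≤ Real.sqrt (WBl S.l S.m S.a (2 * k) T (nd t)) := by
  classical
  have hcop : IsCoprime (nd t).1 (nd t).2 := by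
    unfold nd
    rw [Int.isCoprime_iff_gcd_eq_one]
    exact t.reduced
  have ht' : ∀ k, S.F k (nd t).1 (nd t).2 ≠ 0 := ht
  have h0 : ∀ j, (S.l j).1 * (nd t).1 + (S.l j).2 * (nd t).2 ≠ 0 := by
    intro j hj
    apply ht' j.1
    unfold Surface.F
    apply mul_eq_zero_of_right
    apply prod_eq_zero (mem_univ j.2)
    have h1 : ((S.l (j.1, j.2)).1 * (nd t).1 + (S.l (j.1, j.2)).2 * (nd t).2) = 0 := hj
    rw [h1]
    exact zero_pow (hS.odd _).pos.ne'
  have h3 : rho T (omB (fun j => (S.l j).1) (fun j => (S.l j).2) (nd t)) = 1 := by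
    refine le_antisymm (rho_le_one _ _) (not_lt.1 fun h => hb ⟨h0, h⟩)
  have h4 : WBl S.l S.m S.a (2 * k) T (nd t) =
      ((Pool.Agent.W307.SE.Sel (S.F 0 (nd t).1 (nd t).2) (S.F 1 (nd t).1 (nd t).2)).ncard : ℝ) ^
        (2 * k) := by
    unfold WBl
    rw [if_pos ⟨hcop, h0⟩, h3, mul_one]
    rfl
  have hne : S.F 0 (nd t).1 (nd t).2 ≠ S.F 1 (nd t).1 (nd t).2 := by
    intro h
    apply ht' 2
    rw [← hS.sub, h, sub_self]
  have h5 := two_pow_le (ht' 0) (ht' 1) hne
  have h6 : (2 : ℝ) ^ total S t ≤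
      ((Pool.Agent.W307.SE.Sel (S.F 0 (nd t).1 (nd t).2) (S.F 1 (nd t).1 (nd t).2)).ncard : ℝ) := by
    exact_mod_cast h5
  rw [h4, mul_comm 2 k, pow_mul _ k 2, Real.sqrt_sq (by positivity), ← pow_mul, mul_comm k, pow_mul]
  exact pow_le_pow_left₀ (by positivity) h6 k

/-- sums over the good approximations in a set -/
theorem sum_le (S : Surface) (α : ℝ) (c Q : ℕ) (X : Set ℚ) (f : ℚ → ℝ) (g : ℤ × ℤ → ℝ)
    (hg : ∀ x, 0 ≤ g x) (hfg : ∀ t ∈ X, S.Smooth t → f t ≤ g (nd t)) :
    ∑ᶠ t ∈ Good S α c Q X, f t / Real.log t.den ≤ ∑ᶠ t ∈ Ap α c Q, g (nd t) / Real.log t.den := by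
  classical
  have hA : (Ap α c Q).Finite := finite_approx α c Q
  rw [finsum_mem_eq_finite_toFinset_sum _ (finite_good S α c Q X),
    finsum_mem_eq_finite_toFinset_sum _ hA]
  refine (sum_le_sum (g := fun t : ℚ => g (nd t) / Real.log t.den) fun t ht => ?_).trans
    (sum_le_sum_of_subset_of_nonneg (fun t ht => ?_) fun t _ _ =>
      div_nonneg (hg _) (Real.log_natCast_nonneg _))
  · obtain ⟨-, h2, h3⟩ := (finite_good S α c Q X).mem_toFinset.1 ht
    exact div_le_div_of_nonneg_right (hfg t h3 h2) (Real.log_natCast_nonneg _)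
  · exact hA.mem_toFinset.2 ((finite_good S α c Q X).mem_toFinset.1 ht).1

/-- the data for one surface and one `A` -/
theorem exT (S : Surface) (A : ℕ) : ∃ T : Finset (Fin 3 × Fin S.n → ℝ), S.Ok → 0 < S.n → 1 ≤ A →
    (∀ t ∈ T, ∀ j, 0 < t j) ∧
    (∀ ε : ℝ, 0 < ε → ∃ X0 : ℕ, BoxAvg (indP (bad S T)) ε X0) ∧
    ∃ p : ℝ, 0 ≤ p ∧ BoxAvg (WBl S.l S.m S.a (2 * A) T) p 1 := by
  by_cases h : S.Ok ∧ 0 < S.n ∧ 1 ≤ A
  · obtain ⟨h1, h2, h3⟩ := h
    obtain ⟨T, hT1, hT2, C, hC0, hC⟩ := Pool.Agent.X257.AE.BT.box_w (famS S h1 h2) (k := 2 * A)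
      (by omega)
    exact ⟨T, fun _ _ _ => ⟨hT1, Pool.Agent.X257.AE.BT.bad_sq (fun j => (S.l j).1)
      (fun j => (S.l j).2) (fun j => not_both (famS S h1 h2) j) T hT1 hT2, C, hC0, hC⟩⟩
  · exact ⟨∅, fun h1 h2 h3 => absurd ⟨h1, h2, h3⟩ h⟩

/-- the constant -/
theorem exC (S : Surface) (A : ℕ) (T : Finset (Fin 3 × Fin S.n → ℝ))
    (hT : S.Ok → 0 < S.n → 1 ≤ A → (∀ t ∈ T, ∀ j, 0 < t j) ∧
      (∀ ε : ℝ, 0 < ε → ∃ X0 : ℕ, BoxAvg (indP (bad S T)) ε X0) ∧
      ∃ p : ℝ, 0 ≤ p ∧ BoxAvg (WBl S.l S.m S.a (2 * A) T) p 1) (c : ℕ) (K : ℤ) :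
    ∃ C : ℝ, 0 ≤ C ∧ (S.Ok → 0 < S.n → 1 ≤ A → ∀ᵐ α : ℝ, α ∈ Set.Ico (K : ℝ) (K + 1) →
      ∀ᶠ Q : ℕ in atTop, ∑ᶠ t ∈ Ap α c Q,
        Real.sqrt (WBl S.l S.m S.a (2 * A) T (nd t)) / Real.log t.den ≤
          C * Real.log (Real.log Q)) := by
  by_cases h : S.Ok ∧ 0 < S.n ∧ 1 ≤ A
  · obtain ⟨h1, h2, h3⟩ := h
    obtain ⟨hT1, -, p, hp, hB⟩ := hT h1 h2 h3
    obtain ⟨C, hC, hC'⟩ := Pool.Agent.X257.AE.ae_ap (fun t => WBl_nonneg _ _ _ _ hT1 t) hp hB K c
    refine ⟨C, hC, fun _ _ _ => ?_⟩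
    filter_upwards [hC'] with α hα hK
    exact (hα hK).1
  · exact ⟨0, le_rfl, fun h1 h2 h3 => absurd ⟨h1, h2, h3⟩ h⟩

/-- **Theorem.** There are numbers `r₀ (S, c, K, A)`, `C (S, c, K, A)` and sets `Z (S, A)` of rational numbers
with the following properties for almost every real `α`, all the surfaces `S` with `n > 0` which satisfy the
conditions `Ok`, all natural numbers `c` and all `A ≥ 1`. Let `N (t)` be the sum of the rank and of the
corank of the 2-primary part of the Tate-Shafarevich group of the fibre at `t`. The rational numbers `t`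
with `|α - t| ≤ c / v²`, `v` the denominator, are counted with the weight `1 / log v`.

(1) If `r ≥ r₀ (S, c, ⌊α⌋, A)` then for all large `Q` the sum of the weights of the `t` with `v ≤ Q` and
`N (t) ≥ r` is at most `A ^ (-r) log log Q`.

(2) If `h (v)` tends to infinity with `v` then the sum of the weights of the `t` with `v ≤ Q` and
`N (t) > h (v)` is at most `ε log log Q`, for every `ε > 0` and all large `Q`.

(3) For every `ε > 0` and all large `Q` the sum of the weights of the `t ∈ Z (S, A)` with `v ≤ Q` is at most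
`ε log log Q`, and the sum of `A ^ N (t) / log v` over the `t ∉ Z (S, A)` with `v ≤ Q` is at most
`C (S, c, ⌊α⌋, A) log log Q`. -/
theorem result : ∃ (r₀ : Surface → ℕ → ℤ → ℕ → ℕ) (C : Surface → ℕ → ℤ → ℕ → ℝ)
    (Z : Surface → ℕ → Set ℚ), ∀ᵐ α : ℝ, ∀ S : Surface, S.Ok → 0 < S.n → ∀ c : ℕ,
    (∀ A : ℕ, 1 ≤ A → ∀ r : ℕ, r₀ S c ⌊α⌋ A ≤ r → ∀ᶠ Q : ℕ in atTop,
      ∑ᶠ t ∈ Good S α c Q {t | r ≤ total S t}, 1 / Real.log t.den ≤
        Real.log (Real.log Q) / (A : ℝ) ^ r) ∧
    (∀ h : ℕ → ℝ, Tendsto h atTop atTop → ∀ ε : ℝ, 0 < ε → ∀ᶠ Q : ℕ in atTop,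
      ∑ᶠ t ∈ Good S α c Q {t | h t.den < total S t}, 1 / Real.log t.den ≤
        ε * Real.log (Real.log Q)) ∧
    ∀ A : ℕ, 1 ≤ A →
      (∀ ε : ℝ, 0 < ε → ∀ᶠ Q : ℕ in atTop,
        ∑ᶠ t ∈ Good S α c Q (Z S A), 1 / Real.log t.den ≤ ε * Real.log (Real.log Q)) ∧
      ∀ᶠ Q : ℕ in atTop, ∑ᶠ t ∈ Good S α c Q (Z S A)ᶜ, (A : ℝ) ^ total S t / Real.log t.den ≤
        C S c ⌊α⌋ A * Real.log (Real.log Q) := by
  classical
  choose T hT using exT
  choose C hC0 hC using fun (S : Surface) (A : ℕ) => exC S A (T S A) (hT S A)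
  refine ⟨fun S c K A => ⌈2 * C S A c K⌉₊, fun S c K A => C S A c K,
    fun S A => {t | nd t ∈ bad S (T S A)}, ?_⟩
  rw [ae_all_iff]
  intro S
  by_cases hS : S.Ok ∧ 0 < S.n
  swap
  · exact Eventually.of_forall fun α h1 h2 => absurd ⟨h1, h2⟩ hS
  obtain ⟨hS, hn⟩ := hS
  simp only [hS, hn, forall_true_left]
  rw [ae_all_iff]
  intro c
  have h1 : ∀ᵐ α : ℝ, ∀ A : ℕ, 1 ≤ A → ∀ ε : ℝ, 0 < ε → ∀ᶠ Q : ℕ in atTop,
      ∑ᶠ t ∈ Ap α c Q, indP (bad S (T S A)) (nd t) / Real.log t.den ≤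
        ε * Real.log (Real.log Q) := by
    rw [ae_all_iff]
    intro A
    by_cases hA : 1 ≤ A
    · filter_upwards [Pool.Agent.X257.AE.ae_ap_zero (hT S A hS hn hA).2.1 c] with α hα _
      exact hα
    · exact Eventually.of_forall fun α h => absurd h hA
  have h2 : ∀ᵐ α : ℝ, ∀ (A : ℕ) (K : ℤ), 1 ≤ A → α ∈ Set.Ico (K : ℝ) (K + 1) →
      ∀ᶠ Q : ℕ in atTop, ∑ᶠ t ∈ Ap α c Q,
        Real.sqrt (WBl S.l S.m S.a (2 * A) (T S A) (nd t)) / Real.log t.den ≤
          C S A c K * Real.log (Real.log Q) := by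
    rw [ae_all_iff]
    intro A
    rw [ae_all_iff]
    intro K
    by_cases hA : 1 ≤ A
    · filter_upwards [hC S A c K hS hn hA] with α hα _
      exact hα
    · exact Eventually.of_forall fun α h => absurd h hA
  have hll : ∀ᶠ Q : ℕ in atTop, 0 ≤ Real.log (Real.log (Q : ℝ)) :=
    (Real.tendsto_log_atTop.comp
      (Real.tendsto_log_atTop.comp tendsto_natCast_atTop_atTop)).eventually_ge_atTop 0
  filter_upwards [h1, h2] with α hα1 hα2
  have hK : α ∈ Set.Ico ((⌊α⌋ : ℤ) : ℝ) (⌊α⌋ + 1) := ⟨Int.floor_le α, Int.lt_floor_add_one α⟩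
  -- the tails
  have hmain : ∀ A : ℕ, 1 ≤ A → ∀ r : ℕ, ⌈2 * C S A c ⌊α⌋⌉₊ ≤ r → ∀ᶠ Q : ℕ in atTop,
      ∑ᶠ t ∈ Good S α c Q {t | r ≤ total S t}, 1 / Real.log t.den ≤
        Real.log (Real.log Q) / (A : ℝ) ^ r := by
    intro A hA r hr
    have hA0 : (0 : ℝ) < A := by
      have : 0 < A := hA
      exact_mod_cast this
    filter_upwards [hα1 A hA (1 / 2 * (1 / (A : ℝ) ^ r)) (by positivity), hα2 A ⌊α⌋ hA hK, hll]
      with Q hQ1 hQ2 hQ0
    have hapf : (Ap α c Q).Finite := finite_approx α c Q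
    have h3 := sum_le S α c Q {t | r ≤ total S t} (fun _ => 1)
      (fun x => indP (bad S (T S A)) x +
        1 / ((2 : ℝ) ^ A) ^ r * Real.sqrt (WBl S.l S.m S.a (2 * A) (T S A) x))
      (fun x => add_nonneg (indP_nonneg _ _) (by positivity)) (fun t ht hsm => by
        by_cases hb : nd t ∈ bad S (T S A)
        · have e1 : indP (bad S (T S A)) (nd t) = 1 := if_pos hb
          have e2 : 0 ≤ 1 / ((2 : ℝ) ^ A) ^ r *
              Real.sqrt (WBl S.l S.m S.a (2 * A) (T S A) (nd t)) := by positivity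
          change 1 ≤ _
          linarith
        · have e1 := pow_le hS (k := A) hsm hb
          have e2 : ((2 : ℝ) ^ A) ^ r ≤ ((2 : ℝ) ^ A) ^ total S t :=
            pow_le_pow_right₀ (one_le_pow₀ (by norm_num)) ht
          have e3 := indP_nonneg (bad S (T S A)) (nd t)
          have e4 : 1 ≤ 1 / ((2 : ℝ) ^ A) ^ r *
              Real.sqrt (WBl S.l S.m S.a (2 * A) (T S A) (nd t)) := by
            rw [one_div, inv_mul_eq_div, le_div_iff₀ (by positivity), one_mul]
            exact e2.trans e1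
          change 1 ≤ _
          linarith)
    refine h3.trans ?_
    have h4 : ∑ᶠ t ∈ Ap α c Q, (indP (bad S (T S A)) (nd t) + 1 / ((2 : ℝ) ^ A) ^ r *
        Real.sqrt (WBl S.l S.m S.a (2 * A) (T S A) (nd t))) / Real.log t.den =
        ∑ᶠ t ∈ Ap α c Q, indP (bad S (T S A)) (nd t) / Real.log t.den +
        1 / ((2 : ℝ) ^ A) ^ r * ∑ᶠ t ∈ Ap α c Q,
          Real.sqrt (WBl S.l S.m S.a (2 * A) (T S A) (nd t)) / Real.log t.den := by
      rw [finsum_mem_eq_finite_toFinset_sum _ hapf, finsum_mem_eq_finite_toFinset_sum _ hapf,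
        finsum_mem_eq_finite_toFinset_sum _ hapf, mul_sum, ← sum_add_distrib]
      refine sum_congr rfl fun t _ => ?_
      ring
    rw [h4]
    have h5 : 1 / ((2 : ℝ) ^ A) ^ r * ∑ᶠ t ∈ Ap α c Q,
        Real.sqrt (WBl S.l S.m S.a (2 * A) (T S A) (nd t)) / Real.log t.den ≤
        1 / ((2 : ℝ) ^ A) ^ r * (C S A c ⌊α⌋ * Real.log (Real.log Q)) :=
      mul_le_mul_of_nonneg_left hQ2 (by positivity)
    have h6 : 1 / ((2 : ℝ) ^ A) ^ r * (C S A c ⌊α⌋ * Real.log (Real.log Q)) ≤
        1 / 2 * (1 / (A : ℝ) ^ r) * Real.log (Real.log Q) := by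
      rw [← mul_assoc]
      refine mul_le_mul_of_nonneg_right ?_ hQ0
      have e1 : (2 : ℝ) * A ≤ 2 ^ A := by
        have e2 : ∀ n : ℕ, 2 * (n + 1) ≤ 2 ^ (n + 1) := by
          intro n
          induction n with
          | zero => norm_num
          | succ n ih =>
            have : 2 ^ (n + 1 + 1) = 2 * 2 ^ (n + 1) := by ring
            omega
        have e3 : 2 * A ≤ 2 ^ A := by
          obtain ⟨m, rfl⟩ : ∃ m, A = m + 1 := ⟨A - 1, by omega⟩
          exact e2 m
        exact_mod_cast e3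
      have e2 : (2 * (A : ℝ)) ^ r ≤ ((2 : ℝ) ^ A) ^ r := pow_le_pow_left₀ (by positivity) e1 r
      have e3 : 2 * C S A c ⌊α⌋ ≤ 2 ^ r := by
        have e4 : 2 * C S A c ⌊α⌋ ≤ ⌈2 * C S A c ⌊α⌋⌉₊ := Nat.le_ceil _
        have e5 : (⌈2 * C S A c ⌊α⌋⌉₊ : ℝ) ≤ r := by exact_mod_cast hr
        have e6 : (r : ℝ) ≤ 2 ^ r := by
          have : r ≤ 2 ^ r := Nat.lt_two_pow_self.le
          exact_mod_cast this
        linarith
      have e4 : 1 / ((2 : ℝ) ^ A) ^ r ≤ 1 / (2 * (A : ℝ)) ^ r :=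
        one_div_le_one_div_of_le (by positivity) e2
      calc 1 / ((2 : ℝ) ^ A) ^ r * C S A c ⌊α⌋ ≤ 1 / (2 * (A : ℝ)) ^ r * C S A c ⌊α⌋ :=
            mul_le_mul_of_nonneg_right e4 (hC0 _ _ _ _)
        _ = 1 / (A : ℝ) ^ r * (C S A c ⌊α⌋ / 2 ^ r) := by
            rw [mul_pow]
            field_simp
        _ ≤ 1 / (A : ℝ) ^ r * (1 / 2) := by
            refine mul_le_mul_of_nonneg_left ?_ (by positivity)
            rw [div_le_iff₀ (by positivity)]
            linarith
        _ = 1 / 2 * (1 / (A : ℝ) ^ r) := by ring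
    have h7 : Real.log (Real.log Q) / (A : ℝ) ^ r =
        1 / 2 * (1 / (A : ℝ) ^ r) * Real.log (Real.log Q) +
        1 / 2 * (1 / (A : ℝ) ^ r) * Real.log (Real.log Q) := by ring
    rw [h7]
    exact add_le_add hQ1 (h5.trans h6)
  refine ⟨hmain, fun h hh ε hε => ?_, fun A hA => ⟨fun ε hε => ?_, ?_⟩⟩
  · -- a function tending to infinity
    obtain ⟨r1, hr1⟩ := exists_pow_lt_of_lt_one (show (0 : ℝ) < ε / 2 by positivity)
      (show (1 / 2 : ℝ) < 1 by norm_num)
    set r := max r1 ⌈2 * C S 2 c ⌊α⌋⌉₊ with hr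
    have hr2 : ((2 : ℕ) : ℝ) ^ r * (ε / 2) ≥ 1 := by
      have e1 : (1 / 2 : ℝ) ^ r ≤ ε / 2 :=
        (pow_le_pow_of_le_one (by norm_num) (by norm_num) (le_max_left _ _)).trans hr1.le
      rw [one_div, inv_pow] at e1
      have e2 : (0 : ℝ) < 2 ^ r := by positivity
      rw [inv_le_iff_one_le_mul₀ e2] at e1
      push_cast
      linarith
    obtain ⟨D, hD⟩ := (hh.eventually_ge_atTop (r : ℝ)).exists_forall_of_atTop
    have hlog : Tendsto (fun x : ℕ => Real.log (Real.log (x : ℝ))) atTop atTop :=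
      Real.tendsto_log_atTop.comp (Real.tendsto_log_atTop.comp tendsto_natCast_atTop_atTop)
    set M : ℝ := ∑ᶠ t ∈ Approx α c D, 1 / Real.log t.den with hM
    filter_upwards [hmain 2 (by norm_num) r (le_max_right _ _),
      hlog.eventually_ge_atTop (M / (ε / 2)), hll] with Q hQ1 hQ2 hQ0
    have hf1 := finite_good S α c Q {t | h t.den < total S t}
    have hf2 := finite_good S α c Q {t | r ≤ total S t}
    have hf3 := finite_approx α c D
    have h3 : ∑ᶠ t ∈ Good S α c Q {t | h t.den < total S t}, 1 / Real.log t.den ≤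
        ∑ᶠ t ∈ Good S α c Q {t | r ≤ total S t}, 1 / Real.log t.den + M := by
      rw [hM, finsum_mem_eq_finite_toFinset_sum _ hf1, finsum_mem_eq_finite_toFinset_sum _ hf2,
        finsum_mem_eq_finite_toFinset_sum _ hf3]
      have hnn : ∀ t : ℚ, 0 ≤ 1 / Real.log t.den := fun t =>
        div_nonneg zero_le_one (Real.log_natCast_nonneg _)
      refine le_trans (sum_le_sum_of_subset_of_nonneg (t := hf2.toFinset ∪ hf3.toFinset)
        (fun t ht => ?_) fun t _ _ => hnn t) ?_
      · obtain ⟨⟨a1, a2, a3⟩, b, d⟩ := hf1.mem_toFinset.1 ht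
        rw [mem_union]
        rcases le_or_gt D t.den with hDt | hDt
        · left
          refine hf2.mem_toFinset.2 ⟨⟨a1, a2, a3⟩, b, ?_⟩
          have e1 := hD _ hDt
          have e2 : h t.den < total S t := d
          have e3 : (r : ℝ) < total S t := lt_of_le_of_lt e1 e2
          exact_mod_cast e3.le
        · right
          exact hf3.mem_toFinset.2 ⟨a1, hDt.le, a3⟩
      · rw [← sum_union_inter]
        exact le_add_of_nonneg_right (sum_nonneg fun t _ => hnn t)
    refine h3.trans ?_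
    have h4 : Real.log (Real.log Q) / ((2 : ℕ) : ℝ) ^ r ≤ ε / 2 * Real.log (Real.log Q) := by
      rw [div_le_iff₀ (by positivity)]
      nlinarith
    have h5 : M ≤ ε / 2 * Real.log (Real.log Q) := by
      rw [div_le_iff₀ (by positivity)] at hQ2
      linarith
    linarith
  · filter_upwards [hα1 A hA ε hε] with Q hQ
    refine (sum_le S α c Q {t | nd t ∈ bad S (T S A)} (fun _ => 1) (indP (bad S (T S A)))
      (indP_nonneg _) (fun t ht _ => ?_)).trans hQ
    have e1 : indP (bad S (T S A)) (nd t) = 1 := if_pos ht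
    rw [e1]
  · filter_upwards [hα2 A ⌊α⌋ hA hK] with Q hQ
    refine (sum_le S α c Q {t | nd t ∈ bad S (T S A)}ᶜ (fun t => (A : ℝ) ^ total S t)
      (fun x => Real.sqrt (WBl S.l S.m S.a (2 * A) (T S A) x)) (fun x => Real.sqrt_nonneg _)
      (fun t ht hsm => ?_)).trans hQ
    refine le_trans ?_ (pow_le hS (k := A) hsm ht)
    refine pow_le_pow_left₀ (Nat.cast_nonneg A) ?_ _
    have : A < 2 ^ A := Nat.lt_two_pow_self
    exact_mod_cast this.le

end Pool.Agent.Results.MP_788af2_nt.ApproximationTails
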