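import Pool.Agent.Results.MP_6cf96a_nt.RankTailsInShortSquares
import Pool.Agent.TH344.SG.Bin
import Pool.Agent.T6.H64.AR.Body

/-!
# The average rank over the fibres in convex bodies and over the Farey fractions of short intervals

Let `F_0`, `F_1` be binary forms with integer coefficients such that `F_0`, `F_1` and `F_2 = F_0 - F_1`
are constants times odd powers of `n` linear forms each, `n > 0` even, all the `3 n` linear forms pairwise
non-proportional. The curves `y² = x (x - F_0 (u, v)) (x - F_1 (u, v))` are the fibres at the points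
`t = u / v` of a non-isotrivial elliptic surface over the projective line.

We show that the average of `2 ^ (rank + corank)`, where `corank` is the corank of the 2-primary part of
the Tate-Shafarevich group, is bounded over the coprime pairs `(u, v)` in every convex set `K` which
contains a square of side `X` and is contained in the square `|x|, |y| ≤ X ^ L`, and that large ranks are
rarer than any exponential in every such `K`, uniformly in `K`. In particular, for every `δ > 0` the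
average rank of the fibres at the Farey fractions of order `Q` in ANY interval of length at least
`Q ^ (δ - 1)` in `[-M, M]` is at most a constant that depends only on the surface, `M` and `δ`. (Intervals
of length `1 / Q` may contain no Farey fractions of order `Q` at all.)
-/

set_option autoImplicit false

namespace Pool.Agent.Results.MP_788af2_nt.ConvexBodies

open Finset Filter

open Pool.Agent.Results.MP_788af2_nt.RationalApproximations (E Surface)
open Pool.Agent.Results.MP_6cf96a_nt.RankTailsInShortSquares (fibre rank corank High)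

/-- `K` is a convex subset of the square `|x|, |y| ≤ X ^ L` and contains a square of side `X` -/
structure Body (X L : ℕ) (K : Set (ℝ × ℝ)) : Prop where
  conv : Convex ℝ K
  bdd : ∀ z ∈ K, |z.1| ≤ (X : ℝ) ^ L ∧ |z.2| ≤ (X : ℝ) ^ L
  sq : ∃ a b : ℝ, Set.Icc a (a + X) ×ˢ Set.Icc b (b + X) ⊆ K

/-- the coprime pairs `(u, v)` in `K` such that the fibre at `[u : v]` is an elliptic curve -/
def Pts (S : Surface) (K : Set (ℝ × ℝ)) : Set (ℤ × ℤ) :=
  {t | ((t.1 : ℝ), (t.2 : ℝ)) ∈ K ∧ IsCoprime t.1 t.2 ∧ ∀ k, S.F k t.1 t.2 ≠ 0}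

/-- the rational numbers `t ∈ [α, β]` with denominator at most `Q` such that the fibre at `t` is an
elliptic curve -/
def Farey (S : Surface) (α β : ℝ) (Q : ℕ) : Set ℚ :=
  {t | α ≤ t ∧ (t : ℝ) ≤ β ∧ t.den ≤ Q ∧ S.Smooth t}

/-- the sum of the rank and of the corank of the 2-primary part of the Tate-Shafarevich group -/
noncomputable def rs (W : WeierstrassCurve ℚ) : ℕ := rank W + corank W

/-! ### Proof -/

theorem body_of {X L : ℕ} {K : Set (ℝ × ℝ)} (h : Body X L K) : Pool.Agent.T6.H64.AR.Body X L K :=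
  ⟨h.conv, h.bdd, h.sq⟩

theorem l_ne {S : Surface} (hS : S.Ok) (j : Fin 3 × Fin S.n) : S.l j ≠ 0 :=
  Pool.Agent.TH344.SG.ne_zero_of S.l hS.not_prop j

/-- the fibre is smooth if the linear forms do not vanish -/
theorem smooth_of {S : Surface} (hS : S.Ok) {t : ℤ × ℤ}
    (h : ∀ j, (S.l j).1 * t.1 + (S.l j).2 * t.2 ≠ 0) (k : Fin 3) : S.F k t.1 t.2 ≠ 0 := by
  unfold Surface.F
  refine mul_ne_zero (hS.a_ne k) (prod_ne_zero_iff.2 fun i _ => pow_ne_zero _ (h (k, i)))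

theorem pts_fin (S : Surface) {X L : ℕ} {K : Set (ℝ × ℝ)} (h : Body X L K) : (Pts S K).Finite :=
  (body_of h).finite.subset fun _ ht => ht.1

open Classical in
/-- the general statement -/
theorem main {S : Surface} (hS : S.Ok) (L : ℕ) : ∃ X₀ : ℕ, ∀ X : ℕ, X₀ ≤ X → ∀ K : Set (ℝ × ℝ),
    Body X L K → (X : ℝ) ^ 2 / 200 ≤ ((Pts S K).ncard : ℝ) ∧
      ∀ g : ℤ × ℤ → ℝ, (∀ t, 0 ≤ g t) → ∀ B : ℝ, 0 ≤ B →
        (∀ U V : ℤ, |U| ≤ ((X / 4 : ℕ) : ℤ) ^ (2 * L + 3) → |V| ≤ ((X / 4 : ℕ) : ℤ) ^ (2 * L + 3) →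
          ∑ t ∈ Ioc U (U + ((X / 4 : ℕ) : ℤ)) ×ˢ Ioc V (V + ((X / 4 : ℕ) : ℤ)),
            (if IsCoprime t.1 t.2 ∧ ∀ k, S.F k t.1 t.2 ≠ 0 then g t else 0) ≤
              B * ((X / 4 : ℕ) : ℝ) ^ 2) →
        ∑ᶠ t ∈ Pts S K, g t ≤ 72 * B * ((Pts S K).ncard : ℝ) := by
  obtain ⟨X₀, h⟩ := Pool.Agent.T6.H64.AR.body_avg S.l (l_ne hS) L
  refine ⟨X₀, fun X hX K hK => ?_⟩
  obtain ⟨T, hT⟩ : ∃ T : Finset (ℤ × ℤ), T = (body_of hK).finite.toFinset := ⟨_, rfl⟩
  have hT' : ∀ t : ℤ × ℤ, t ∈ T ↔ ((t.1 : ℝ), (t.2 : ℝ)) ∈ K := by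
    intro t
    rw [hT, Set.Finite.mem_toFinset]
    rfl
  have h1 := h X hX K (body_of hK) T hT' (fun t => IsCoprime t.1 t.2 ∧ ∀ k, S.F k t.1 t.2 ≠ 0)
    (fun t h1 h2 => ⟨h1, fun k => smooth_of hS h2 k⟩)
  have hP : Pts S K = ((T.filter (fun t => IsCoprime t.1 t.2 ∧ ∀ k, S.F k t.1 t.2 ≠ 0) :
      Finset (ℤ × ℤ)) : Set (ℤ × ℤ)) := by
    ext t
    rw [mem_coe, mem_filter, hT']
    rfl
  have hc : (Pts S K).ncard =
      (T.filter (fun t => IsCoprime t.1 t.2 ∧ ∀ k, S.F k t.1 t.2 ≠ 0)).card := by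
    rw [hP, Set.ncard_coe_finset]
  rw [hc]
  refine ⟨h1.1, fun g hg B hB hbox => ?_⟩
  have h2 := h1.2 (fun t => if IsCoprime t.1 t.2 ∧ ∀ k, S.F k t.1 t.2 ≠ 0 then g t else 0)
    (fun t => by
      split_ifs
      · exact hg t
      · exact le_rfl) B hB hbox
  refine le_trans (le_of_eq ?_) h2
  rw [hP, finsum_mem_coe_finset, sum_filter]

/-- the average over bodies -/
theorem avg {S : Surface} (hS : S.Ok) (L : ℕ) : ∃ C : ℝ, ∃ X₀ : ℕ, ∀ X : ℕ, X₀ ≤ X →
    ∀ K : Set (ℝ × ℝ), Body X L K →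
      ∑ᶠ t ∈ Pts S K, (2 : ℝ) ^ rs (fibre S t) ≤ C * ((Pts S K).ncard : ℝ) := by
  classical
  obtain ⟨C, hC⟩ := Pool.Agent.TH344.SG.bin hS.even S.l S.m hS.odd S.a hS.a_ne hS.not_prop hS.sub
    (2 * L + 3)
  obtain ⟨X₀, h⟩ := main hS L
  refine ⟨72 * max C 0, max X₀ 4, fun X hX K hK => ?_⟩
  have hX4 : 1 ≤ X / 4 := by
    have := (le_max_right _ _).trans hX
    omega
  refine (h X ((le_max_left _ _).trans hX) K hK).2 (fun t => (2 : ℝ) ^ rs (fibre S t))
    (fun t => by positivity) (max C 0) (le_max_right _ _) ?_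
  intro U V hU hV
  have hU' : U.natAbs ≤ (X / 4) ^ (2 * L + 3) := by
    rw [Int.abs_eq_natAbs] at hU
    exact_mod_cast hU
  have hV' : V.natAbs ≤ (X / 4) ^ (2 * L + 3) := by
    rw [Int.abs_eq_natAbs] at hV
    exact_mod_cast hV
  have h1 := hC (X / 4) U V hX4 hU' hV'
  rw [sum_filter] at h1
  have h2 : C * ((X / 4 : ℕ) : ℝ) ^ 2 ≤ max C 0 * ((X / 4 : ℕ) : ℝ) ^ 2 :=
    mul_le_mul_of_nonneg_right (le_max_left _ _) (by positivity)
  refine le_trans (sum_le_sum fun t _ => ?_) (h1.trans h2)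
  change (if IsCoprime t.1 t.2 ∧ ∀ k, S.F k t.1 t.2 ≠ 0 then (2 : ℝ) ^ rs (fibre S t) else 0) ≤
    (if IsCoprime t.1 t.2 ∧ ∀ k, S.F k t.1 t.2 ≠ 0 then
      Pool.Agent.W307.SE.SN (S.F 0 t.1 t.2) (S.F 1 t.1 t.2) else 0)
  by_cases h3 : IsCoprime t.1 t.2 ∧ ∀ k, S.F k t.1 t.2 ≠ 0
  · rw [if_pos h3, if_pos h3]
    have hne : S.F 0 t.1 t.2 ≠ S.F 1 t.1 t.2 := by
      intro h
      apply h3.2 2
      rw [← hS.sub, h, sub_self]
    have h5 := Pool.Agent.Results.MP_6cf96a_nt.RankTailsInShortSquares.two_pow_le (h3.2 0)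
      (h3.2 1) hne
    unfold Pool.Agent.W307.SE.SN
    exact_mod_cast h5
  · rw [if_neg h3, if_neg h3]

/-- the tails over bodies -/
theorem tails {S : Surface} (hS : S.Ok) (hn : 0 < S.n) (L A : ℕ) (hA : 1 ≤ A) :
    ∃ r₀ : ℕ, ∀ r : ℕ, r₀ ≤ r → ∃ X₀ : ℕ, ∀ X : ℕ, X₀ ≤ X → ∀ K : Set (ℝ × ℝ), Body X L K →
      ((Pts S K ∩ {t | r ≤ rs (fibre S t)}).ncard : ℝ) ≤ ((Pts S K).ncard : ℝ) / (A : ℝ) ^ r := by
  classical
  obtain ⟨r₀, hr₀⟩ := Pool.Agent.Results.MP_6cf96a_nt.RankTailsInShortSquares.result S hS hn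
    (2 * L + 3) (72 * A) (by omega)
  obtain ⟨X₀, h⟩ := main hS L
  have hA0 : (0 : ℝ) < A := by
    have : 0 < A := hA
    exact_mod_cast this
  refine ⟨max r₀ 1, fun r hr => ?_⟩
  obtain ⟨X₁, hX₁⟩ := hr₀ r ((le_max_left _ _).trans hr)
  refine ⟨max X₀ (4 * X₁), fun X hX K hK => ?_⟩
  have hX4 : X₁ ≤ X / 4 := by
    have := (le_max_right _ _).trans hX
    omega
  have hfin := pts_fin S hK
  have h1 := (h X ((le_max_left _ _).trans hX) K hK).2
    (fun t => if r ≤ rs (fibre S t) then (1 : ℝ) else 0)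
    (fun t => by
      change 0 ≤ (if r ≤ rs (fibre S t) then (1 : ℝ) else 0)
      split_ifs
      · exact zero_le_one
      · exact le_rfl) (1 / ((72 * A : ℕ) : ℝ) ^ r) (by positivity) ?_
  · have h2 : ∑ᶠ t ∈ Pts S K, (if r ≤ rs (fibre S t) then (1 : ℝ) else 0) =
        ((Pts S K ∩ {t | r ≤ rs (fibre S t)}).ncard : ℝ) := by
      rw [finsum_mem_eq_finite_toFinset_sum _ hfin, ← sum_filter, sum_const, nsmul_eq_mul, mul_one]
      congr 1
      rw [← Set.ncard_coe_finset]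
      congr 1
      ext t
      rw [mem_coe, mem_filter, Set.Finite.mem_toFinset]
      rfl
    rw [h2] at h1
    refine h1.trans ?_
    rw [div_eq_mul_inv, mul_comm]
    refine mul_le_mul_of_nonneg_left ?_ (Nat.cast_nonneg _)
    push_cast
    have hr1 : 1 ≤ r := (le_max_right _ _).trans hr
    have h3 : (72 : ℝ) ≤ 72 ^ r := by
      calc (72 : ℝ) = 72 ^ 1 := (pow_one _).symm
        _ ≤ 72 ^ r := pow_le_pow_right₀ (by norm_num) hr1
    have h6 : (72 : ℝ) * (1 * ((72 * (A : ℝ)) ^ r)⁻¹) = 72 * (72 ^ r)⁻¹ * ((A : ℝ) ^ r)⁻¹ := by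
      rw [mul_pow, one_mul, mul_inv, mul_assoc]
    rw [h6]
    have h4 : (72 : ℝ) * (72 ^ r)⁻¹ ≤ 1 := by
      rw [← div_eq_mul_inv, div_le_one (by positivity)]
      exact h3
    have h5 : (0 : ℝ) ≤ ((A : ℝ) ^ r)⁻¹ := by positivity
    calc (72 : ℝ) * (72 ^ r)⁻¹ * ((A : ℝ) ^ r)⁻¹ ≤ 1 * ((A : ℝ) ^ r)⁻¹ :=
          mul_le_mul_of_nonneg_right h4 h5
      _ = ((A : ℝ) ^ r)⁻¹ := one_mul _
  · intro U V hU hV
    obtain ⟨h2, h3⟩ := hX₁ (X / 4) hX4 U V hU hV
    have h4 : ∑ t ∈ Ioc U (U + ((X / 4 : ℕ) : ℤ)) ×ˢ Ioc V (V + ((X / 4 : ℕ) : ℤ)),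
        (if IsCoprime t.1 t.2 ∧ ∀ k, S.F k t.1 t.2 ≠ 0 then
          (if r ≤ rs (fibre S t) then (1 : ℝ) else 0) else 0) =
        ((High S r U V (X / 4)).ncard : ℝ) := by
      have e1 : High S r U V (X / 4) = (((Ioc U (U + ((X / 4 : ℕ) : ℤ)) ×ˢ
          Ioc V (V + ((X / 4 : ℕ) : ℤ))).filter (fun t => (IsCoprime t.1 t.2 ∧
            ∀ k, S.F k t.1 t.2 ≠ 0) ∧ r ≤ rs (fibre S t)) : Finset (ℤ × ℤ)) : Set (ℤ × ℤ)) := by
        ext t
        rw [mem_coe, mem_filter, mem_product, mem_Ioc, mem_Ioc]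
        unfold High
        rw [Set.mem_ofPred_eq]
        unfold rs
        tauto
      rw [e1, Set.ncard_coe_finset, card_eq_sum_ones, Nat.cast_sum, sum_filter]
      refine sum_congr rfl fun t _ => ?_
      by_cases h5 : IsCoprime t.1 t.2 ∧ ∀ k, S.F k t.1 t.2 ≠ 0
      · by_cases h6 : r ≤ rs (fibre S t)
        · rw [if_pos h5, if_pos h6, if_pos ⟨h5, h6⟩, Nat.cast_one]
        · rw [if_pos h5, if_neg h6, if_neg (fun h => h6 h.2)]
      · rw [if_neg h5, if_neg (fun h => h5 h.1)]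
    rw [h4]
    refine h3.trans (le_of_eq ?_)
    ring

/-- numerator and denominator -/
def nd (t : ℚ) : ℤ × ℤ := (t.num, t.den)

theorem nd_inj : Function.Injective nd := by
  intro s t h
  have h1 : s.num = t.num := congrArg Prod.fst h
  have h2 : (s.den : ℤ) = t.den := congrArg Prod.snd h
  exact Rat.ext h1 (by exact_mod_cast h2)

open Pool.Agent.T6.H64.AR (tri) in
/-- the Farey fractions of an interval are the points of a triangle -/
theorem farey_pts (S : Surface) (α β : ℝ) (Q : ℕ) :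
    nd '' Farey S α β Q = Pts S (tri α β Q) := by
  ext ⟨u, v⟩
  constructor
  · rintro ⟨t, ⟨h1, h2, h3, h4⟩, h5⟩
    have hu : t.num = u := congrArg Prod.fst h5
    have hv : (t.den : ℤ) = v := congrArg Prod.snd h5
    have hd : (0 : ℝ) < t.den := by exact_mod_cast t.pos
    have ht : (t : ℝ) * t.den = t.num := by
      have := Rat.mul_den_eq_num t
      exact_mod_cast this
    subst hu hv
    refine ⟨⟨?_, ?_, ?_, ?_⟩, ?_, h4⟩
    · change (0 : ℝ) < ((t.den : ℤ) : ℝ)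
      exact_mod_cast t.pos
    · change (((t.den : ℤ) : ℝ)) ≤ Q
      exact_mod_cast h3
    · change α * ((t.den : ℤ) : ℝ) ≤ (t.num : ℝ)
      push_cast
      rw [← ht]
      exact mul_le_mul_of_nonneg_right h1 hd.le
    · change (t.num : ℝ) ≤ β * ((t.den : ℤ) : ℝ)
      push_cast
      rw [← ht]
      exact mul_le_mul_of_nonneg_right h2 hd.le
    · change IsCoprime t.num t.den
      rw [Int.isCoprime_iff_gcd_eq_one]
      exact t.reduced
  · rintro ⟨⟨h1, h2, h3, h4⟩, h5, h6⟩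
    change 0 < ((v : ℤ) : ℝ) at h1
    change ((v : ℤ) : ℝ) ≤ Q at h2
    change α * (v : ℝ) ≤ (u : ℝ) at h3
    change (u : ℝ) ≤ β * (v : ℝ) at h4
    change IsCoprime u v at h5
    change ∀ k, S.F k u v ≠ 0 at h6
    have hv : 0 < v := by exact_mod_cast h1
    have hg : Nat.Coprime u.natAbs v.natAbs := by
      rw [Int.isCoprime_iff_gcd_eq_one] at h5
      exact h5
    obtain ⟨t, ht⟩ : ∃ t : ℚ, t = (u : ℚ) / (v : ℚ) := ⟨_, rfl⟩
    have hnum : t.num = u := by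
      rw [ht]
      exact Rat.num_div_eq_of_coprime hv hg
    have hden : (t.den : ℤ) = v := by
      rw [ht]
      exact Rat.den_div_eq_of_coprime hv hg
    have htr : (t : ℝ) = (u : ℝ) / (v : ℝ) := by
      rw [ht]
      push_cast
      rfl
    refine ⟨t, ⟨?_, ?_, ?_, ?_⟩, ?_⟩
    · rw [htr, le_div_iff₀ h1]
      exact h3
    · rw [htr, div_le_iff₀ h1]
      exact h4
    · have : ((t.den : ℤ) : ℝ) ≤ Q := by rw [hden]; exact h2
      exact_mod_cast this
    · unfold Surface.Smooth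
      rw [hnum, hden]
      exact h6
    · unfold nd
      rw [hnum, hden]

open Pool.Agent.T6.H64.AR (tri) in
/-- **Theorem.** Let `S` be a surface with `n > 0` which satisfies the conditions `Ok`.

(1) For every `L` there are `C`, `X₀` such that for every `X ≥ X₀` and every convex set `K` in the square
`|x|, |y| ≤ X ^ L` that contains a square of side `X` the set `Pts S K` of the coprime pairs in `K` with
smooth fibre is finite, has at least `X² / 200` elements, and the average of `2 ^ (rank + corank)` over it is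
at most `C`.

(2) For all `L` and `A ≥ 1` there is `r₀` such that for `r ≥ r₀` and all large `X` the proportion of the pairs
in `Pts S K` with `rank + corank ≥ r` is at most `1 / A ^ r`, for all `K` as in (1).

(3) For all `M` and `δ > 0` there are `C`, `Q₀` such that for `Q ≥ Q₀` and all `-M ≤ α < β ≤ M` with
`β - α ≥ Q ^ (δ - 1)` the average of `2 ^ (rank + corank)` over the fibres at the rational numbers in
`[α, β]` with denominator at most `Q` is at most `C`.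

(4) For all `M`, `δ > 0` and `A ≥ 1` there is `r₀` such that for `r ≥ r₀` and all large `Q` the proportion of
the fibres in (3) with `rank + corank ≥ r` is at most `1 / A ^ r`, for all `α`, `β` as in (3). -/
theorem result (S : Surface) (hS : S.Ok) (hn : 0 < S.n) :
    (∀ L : ℕ, ∃ C : ℝ, ∃ X₀ : ℕ, ∀ X : ℕ, X₀ ≤ X → ∀ K : Set (ℝ × ℝ), Body X L K →
      (Pts S K).Finite ∧ (X : ℝ) ^ 2 / 200 ≤ ((Pts S K).ncard : ℝ) ∧
        ∑ᶠ t ∈ Pts S K, (2 : ℝ) ^ rs (fibre S t) ≤ C * ((Pts S K).ncard : ℝ)) ∧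
    (∀ L A : ℕ, 1 ≤ A → ∃ r₀ : ℕ, ∀ r : ℕ, r₀ ≤ r → ∃ X₀ : ℕ, ∀ X : ℕ, X₀ ≤ X →
      ∀ K : Set (ℝ × ℝ), Body X L K →
        ((Pts S K ∩ {t | r ≤ rs (fibre S t)}).ncard : ℝ) ≤
          ((Pts S K).ncard : ℝ) / (A : ℝ) ^ r) ∧
    (∀ (M : ℕ) (δ : ℝ), 0 < δ → ∃ C : ℝ, ∃ Q₀ : ℕ, ∀ Q : ℕ, Q₀ ≤ Q → ∀ α β : ℝ, -(M : ℝ) ≤ α →
      β ≤ M → (Q : ℝ) ^ (δ - 1) ≤ β - α →
        (Farey S α β Q).Finite ∧ (Farey S α β Q).Nonempty ∧
          ∑ᶠ t ∈ Farey S α β Q, (2 : ℝ) ^ rs (S.fib t) ≤ C * ((Farey S α β Q).ncard : ℝ)) ∧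
    (∀ (M : ℕ) (δ : ℝ) (A : ℕ), 0 < δ → 1 ≤ A → ∃ r₀ : ℕ, ∀ r : ℕ, r₀ ≤ r → ∃ Q₀ : ℕ, ∀ Q : ℕ,
      Q₀ ≤ Q → ∀ α β : ℝ, -(M : ℝ) ≤ α → β ≤ M → (Q : ℝ) ^ (δ - 1) ≤ β - α →
        ((Farey S α β Q ∩ {t | r ≤ rs (S.fib t)}).ncard : ℝ) ≤
          ((Farey S α β Q).ncard : ℝ) / (A : ℝ) ^ r) := by
  refine ⟨?_, fun L A hA => tails hS hn L A hA, ?_, ?_⟩
  · intro L
    obtain ⟨C, X₀, h⟩ := avg hS L
    obtain ⟨X₁, h1⟩ := main hS L
    exact ⟨C, max X₀ X₁, fun X hX K hK => ⟨pts_fin S hK, (h1 X ((le_max_right _ _).trans hX) K hK).1,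
      h X ((le_max_left _ _).trans hX) K hK⟩⟩
  · intro M δ hδ
    obtain ⟨L, hL⟩ := Pool.Agent.T6.H64.AR.tri_body M δ hδ
    obtain ⟨C, X₀, h⟩ := avg hS L
    obtain ⟨X₁, h1⟩ := main hS L
    obtain ⟨Q₀, hQ₀⟩ := hL (max (max X₀ X₁) 1)
    refine ⟨C, Q₀, fun Q hQ α β hα hβ hab => ?_⟩
    obtain ⟨X, hX, hb⟩ := hQ₀ Q hQ α β hα hβ hab
    have hb' : Body X L (tri α β Q) := ⟨hb.conv, hb.bdd, hb.sq⟩
    have hX0 := (le_max_left _ _).trans ((le_max_left _ _).trans hX)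
    have hX1 := (le_max_right _ _).trans ((le_max_left _ _).trans hX)
    have hX2 : (1 : ℝ) ≤ X := by exact_mod_cast (le_max_right _ _).trans hX
    have e := farey_pts S α β Q
    have hfin : (Farey S α β Q).Finite := by
      apply Set.Finite.of_finite_image (f := nd)
      · rw [e]
        exact pts_fin S hb'
      · exact nd_inj.injOn
    have hcard : (Farey S α β Q).ncard = (Pts S (tri α β Q)).ncard := by
      rw [← e, Set.ncard_image_of_injective _ nd_inj]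
    refine ⟨hfin, ?_, ?_⟩
    · rw [← Set.ncard_pos hfin, hcard]
      have h2 := (h1 X hX1 _ hb').1
      have h3 : (0 : ℝ) < ((Pts S (tri α β Q)).ncard : ℝ) := by
        refine lt_of_lt_of_le ?_ h2
        positivity
      exact_mod_cast h3
    · rw [hcard]
      refine le_trans (le_of_eq ?_) (h X hX0 _ hb')
      rw [← e, finsum_mem_image nd_inj.injOn]
      rfl
  · intro M δ A hδ hA
    obtain ⟨L, hL⟩ := Pool.Agent.T6.H64.AR.tri_body M δ hδ
    obtain ⟨r₀, hr₀⟩ := tails hS hn L A hA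
    refine ⟨r₀, fun r hr => ?_⟩
    obtain ⟨X₀, h⟩ := hr₀ r hr
    obtain ⟨Q₀, hQ₀⟩ := hL X₀
    refine ⟨Q₀, fun Q hQ α β hα hβ hab => ?_⟩
    obtain ⟨X, hX, hb⟩ := hQ₀ Q hQ α β hα hβ hab
    have hb' : Body X L (tri α β Q) := ⟨hb.conv, hb.bdd, hb.sq⟩
    have e := farey_pts S α β Q
    have hcard : (Farey S α β Q).ncard = (Pts S (tri α β Q)).ncard := by
      rw [← e, Set.ncard_image_of_injective _ nd_inj]
    have hcard2 : (Farey S α β Q ∩ {t | r ≤ rs (S.fib t)}).ncard =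
        (Pts S (tri α β Q) ∩ {t | r ≤ rs (fibre S t)}).ncard := by
      rw [← Set.ncard_image_of_injective _ nd_inj, Set.image_inter nd_inj, e]
      congr 1
      ext t
      constructor
      · rintro ⟨h1, s, h2, rfl⟩
        exact ⟨h1, h2⟩
      · rintro ⟨h1, h2⟩
        refine ⟨h1, ?_⟩
        rw [← e] at h1
        obtain ⟨s, -, rfl⟩ := h1
        exact ⟨s, h2, rfl⟩
    rw [hcard, hcard2]
    exact h X hX _ hb'

end Pool.Agent.Results.MP_788af2_nt.ConvexBodies
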