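import Pool.Agent.Results.MP_157626_nt.PencilRankTails
import Pool.Agent.X257.AE.Mean
import Pool.Agent.X257.AE.Point

/-!
# The ranks of the elliptic curves given by the digits of almost every real number

Let `W_t : y² = x (x - D(t) u₀(t)) (x - D(t) u₁(t))` be a one-parameter family of elliptic curves over `ℚ`,
where `u₀`, `u₁` and `u₂ = u₀ - u₁` are polynomials with integer coefficients, `u_k` being a constant times a
product of `n_k` irreducible polynomials, these `n = n₀ + n₁ + n₂` polynomials being pairwise different, and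
`D ≠ 0` is not divisible by one of them. Let `s_k` be the number of the factors of `u_k` at which the
elliptic curve over `ℚ(t)` has split multiplicative reduction, and `3 n_k + s_k < 2 n` for `k = 0, 1, 2`.

For a real number `θ` and a base `b ≥ 2` the integers `t_m = ⌊θ b ^ m⌋` are given by the first digits of
`θ` in base `b`. They grow exponentially, and for no explicit `θ` anything is known about the distribution of
the ranks of the fibres `W_t` at these integers. We show that for almost every real `θ`, for ALL these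
families and ALL bases `b` at the same time, the ranks of the fibres at `t_1, t_2, …` are bounded in the
logarithmic mean, with exponentially small tails for the sum of the rank and the corank of the
Tate-Shafarevich group, and that they are at most a constant times `log m`. The same holds for
`2 ^ rank * #Ш[2 ^ j] ^ (1 / j)` to a small power, for all `j`. Along each sequence `m_0, m_1, …` with
`m_{i+1} ≥ 2 m_i` this is true for the arithmetic means. All the constants depend only on the family.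

The proof: means over all the short intervals `(N, N + M]`, `|N| ≤ M ^ 3`
(`MP_157626_nt.PencilRankTails`), and laws of large numbers for functions of the first digits
(`Pool.Agent.X257.AE`).
-/

set_option autoImplicit false

namespace Pool.Agent.Results.MP_788af2_nt.DigitSequences

open Finset Polynomial Filter MeasureTheory

open Pool.Agent.TH841.SH.D (Sha ShaTor HasDiv rk)
open Pool.Agent.Results.MP_157626_nt.PencilRankTails (u s Par fib)
open Pool.Agent.X257.AE (Avg pre)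

/-- the data of a one-parameter family -/
structure Pencil where
  /-- the numbers of the irreducible factors -/
  n : Fin 3 → ℕ
  /-- the constants -/
  a : Fin 3 → ℤ
  /-- the irreducible factors of `u_k` -/
  f : ∀ k : Fin 3, Fin (n k) → ℤ[X]
  /-- the twist -/
  D : ℤ[X]

namespace Pencil

/-- the conditions: `u_k = a_k ∏ f_{k,i}`, the `f_{k,i}` are irreducible, not constant and pairwise not
associated and do not divide `D ≠ 0`, `u₀ - u₁ = u₂`, and `3 n_k + s_k < 2 (n₀ + n₁ + n₂)` -/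
structure Ok (P : Pencil) : Prop where
  a_ne : ∀ k, P.a k ≠ 0
  irr : ∀ k i, Irreducible (P.f k i) ∧ 0 < (P.f k i).natDegree
  dist : ∀ k i l j, (⟨k, i⟩ : Σ k : Fin 3, Fin (P.n k)) ≠ ⟨l, j⟩ → ¬ Associated (P.f k i) (P.f l j)
  sub : u P.a P.f 0 - u P.a P.f 1 = u P.a P.f 2
  D_ne : P.D ≠ 0
  not_dvd : ∀ k i, ¬ P.f k i ∣ P.D
  bal : ∀ k, 3 * P.n k + s P.D P.a P.f k < 2 * (P.n 0 + P.n 1 + P.n 2)

/-- the fibre at `t`, `y² = x (x - D(t) u₀(t)) (x - D(t) u₁(t))`, is an elliptic curve -/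
def Smooth (P : Pencil) (t : ℤ) : Prop := ∀ k, (P.D * u P.a P.f k).eval t ≠ 0

open Classical in
/-- the rank of the fibre at `t`, zero for a singular fibre -/
noncomputable def rank (P : Pencil) (t : ℤ) : ℕ := if P.Smooth t then rk (fib P.D P.a P.f t) else 0

open Classical in
/-- `2 ^ rank * #Ш[2 ^ j] ^ (1 / j)` for the fibre at `t`, zero for a singular fibre -/
noncomputable def size (P : Pencil) (j : ℕ) (t : ℤ) : ℝ :=
  if P.Smooth t then (2 : ℝ) ^ rk (fib P.D P.a P.f t) *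
    (Nat.card (ShaTor (fib P.D P.a P.f t) (2 ^ j)) : ℝ) ^ ((1 : ℝ) / j) else 0

/-- the fibre at `t` is an elliptic curve of rank at least `r` with a subgroup `(ℚ₂ / ℤ₂) ^ q` in the
Tate-Shafarevich group -/
def Large (P : Pencil) (r q : ℕ) (t : ℤ) : Prop :=
  P.Smooth t ∧ r ≤ rk (fib P.D P.a P.f t) ∧ HasDiv (fib P.D P.a P.f t) q

end Pencil

/-! ### Numbers -/

theorem log_one_add_le {s β : ℝ} (hs : 0 ≤ s) (hβ : 0 < β) : Real.log (1 + s) ≤ 1 + s ^ β / β := by
  have hp : 0 ≤ s ^ β / β := div_nonneg (Real.rpow_nonneg hs _) hβ.le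
  rcases le_total s 1 with h1 | h1
  · have : Real.log (1 + s) ≤ (1 + s) - 1 := Real.log_le_sub_one_of_pos (by linarith)
    linarith
  · have h2 : Real.log (1 + s) ≤ Real.log (2 * s) := Real.log_le_log (by linarith) (by linarith)
    rw [Real.log_mul two_ne_zero (by linarith)] at h2
    have h3 : Real.log s ≤ s ^ β / β := Real.log_le_rpow_div hs hβ
    have h4 : Real.log 2 ≤ 1 := by linarith [Real.log_two_lt_d9]
    linarith

theorem rank_le {r : ℕ} {s β : ℝ} (hs : 0 ≤ s) (hβ : 0 < β) (h : (2 : ℝ) ^ r ≤ 1 + s) :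
    (r : ℝ) ≤ 2 + 2 / β * s ^ β := by
  have h1 : (r : ℝ) * Real.log 2 ≤ Real.log (1 + s) := by
    have := Real.log_le_log (by positivity) h
    rwa [Real.log_pow] at this
  have h2 := log_one_add_le hs hβ
  have h3 : (1 : ℝ) / 2 < Real.log 2 := by linarith [Real.log_two_gt_d9]
  have h4 : (r : ℝ) * (1 / 2) ≤ r * Real.log 2 := by
    apply mul_le_mul_of_nonneg_left h3.le (Nat.cast_nonneg r)
  have h5 : (r : ℝ) ≤ 2 * (1 + s ^ β / β) := by linarith
  refine h5.trans (le_of_eq ?_)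
  ring

theorem harm (x : ℕ) (hx : 3 ≤ x) : ∑ n ∈ Icc 1 x, (1 : ℝ) / n ≤ 2 * Real.log x := by
  have h1 : ∑ n ∈ Icc 1 x, (1 : ℝ) / n = (harmonic x : ℝ) := by
    rw [harmonic_eq_sum_Icc]
    push_cast
    refine sum_congr rfl fun n _ => ?_
    rw [one_div]
  rw [h1]
  have h2 := harmonic_le_one_add_log x
  have h3 : (1 : ℝ) ≤ Real.log x := by
    rw [Real.le_log_iff_exp_le (by positivity)]
    have : (3 : ℝ) ≤ x := by exact_mod_cast hx
    linarith [Real.exp_one_lt_d9]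
  linarith

/-- the constant -/
noncomputable def K (β C : ℝ) : ℝ := 4 * (1 + C) * (1 + 1 / β)

section

variable {S : ℕ → ℤ → ℝ} {R : ℤ → ℕ} {L : ℕ → ℕ → ℤ → Prop} {β C : ℝ}

open Classical in
/-- the hypotheses -/
structure Hyp (S : ℕ → ℤ → ℝ) (R : ℤ → ℕ) (L : ℕ → ℕ → ℤ → Prop) (β C : ℝ) : Prop where
  pos : 0 < β
  nn : 0 < C
  S0 : ∀ j t, 0 ≤ S j t
  R1 : ∀ t, (2 : ℝ) ^ R t ≤ 1 + S 1 t
  m1 : ∀ j, 1 ≤ j → Avg (fun t => S j t ^ β) C 1
  m2 : ∀ j, 1 ≤ j → Avg (fun t => (S j t ^ β) ^ 2) C 1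
  tl : ∀ r q, Avg (fun t => if L r q t then 1 else 0) (C / (2 : ℝ) ^ (β * (r + q))) 1

theorem Hyp.le1 (h : Hyp S R L β C) : C + C ≤ K β C := by
  have h1 := h.pos
  have h2 := h.nn
  unfold K
  have h3 : 0 < 1 / β := by positivity
  nlinarith [mul_pos h2 h3]

theorem Hyp.le2 (h : Hyp S R L β C) : 4 + 2 / β * (C + C) ≤ K β C := by
  have h1 := h.pos
  have h2 := h.nn
  unfold K
  have h3 : 0 < 1 / β := by positivity
  have e : 2 / β = 2 * (1 / β) := by ring
  rw [e]
  nlinarith [mul_pos h2 h3]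

theorem Hyp.le3 (h : Hyp S R L β C) : 2 / β ≤ K β C := by
  have h1 := h.pos
  have h2 := h.nn
  unfold K
  have h3 : 0 < 1 / β := by positivity
  have e : 2 / β = 2 * (1 / β) := by ring
  rw [e]
  nlinarith [mul_pos h2 h3]

theorem Hyp.le4 (h : Hyp S R L β C) : 1 + 4 / β ≤ K β C := by
  have h1 := h.pos
  have h2 := h.nn
  unfold K
  have h3 : 0 < 1 / β := by positivity
  have e : 4 / β = 4 * (1 / β) := by ring
  rw [e]
  nlinarith [mul_pos h2 h3]

open Classical in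
theorem logs (h : Hyp S R L β C) : ∀ᵐ θ : ℝ, ∀ b : ℕ, 2 ≤ b →
    (∀ j : ℕ, 1 ≤ j → ∀ᶠ x : ℕ in atTop,
      ∑ m ∈ Icc 1 x, S j (pre b m θ) ^ β / (m : ℝ) ≤ K β C * Real.log x) ∧
    (∀ r q : ℕ, ∀ᶠ x : ℕ in atTop, ∑ m ∈ (Icc 1 x).filter (fun m => L r q (pre b m θ)), 1 / (m : ℝ) ≤
      K β C / (2 : ℝ) ^ (β * (r + q)) * Real.log x) ∧
    (∀ᶠ x : ℕ in atTop, ∑ m ∈ Icc 1 x, (R (pre b m θ) : ℝ) / (m : ℝ) ≤ K β C * Real.log x) ∧
    (∀ j : ℕ, 1 ≤ j → ∀ᶠ m : ℕ in atTop, S j (pre b m θ) ≤ (m : ℝ) ^ K β C) ∧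
    ∀ᶠ m : ℕ in atTop, (R (pre b m θ) : ℝ) ≤ K β C * Real.log m := by
  have hβ := h.pos
  have h1 : ∀ᵐ θ : ℝ, ∀ j : ℕ, 1 ≤ j → ∀ b : ℕ, 2 ≤ b → ∀ ε : ℝ, 0 < ε → ∀ᶠ x : ℕ in atTop,
      ∑ n ∈ Icc 1 x, S j (pre b n θ) ^ β / (n : ℝ) ≤ (C + ε) * Real.log x := by
    rw [ae_all_iff]
    intro j
    by_cases hj : 1 ≤ j
    · simp only [hj, forall_true_left]
      exact Pool.Agent.X257.AE.ae_flog (fun t => Real.rpow_nonneg (h.S0 j t) β) (h.m1 j hj) (h.m2 j hj)
    · exact Eventually.of_forall fun θ hc => absurd hc hj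
  have h2 : ∀ᵐ θ : ℝ, ∀ r q : ℕ, ∀ b : ℕ, 2 ≤ b → ∀ ε : ℝ, 0 < ε → ∀ᶠ x : ℕ in atTop,
      ∑ n ∈ Icc 1 x, (if L r q (pre b n θ) then (1 : ℝ) else 0) / (n : ℝ) ≤
        (C / (2 : ℝ) ^ (β * (r + q)) + ε) * Real.log x := by
    rw [ae_all_iff]
    intro r
    rw [ae_all_iff]
    intro q
    refine Pool.Agent.X257.AE.ae_flog (f := fun t => if L r q t then (1 : ℝ) else 0)
      (q := C / (2 : ℝ) ^ (β * (r + q))) (fun t => ?_) (h.tl r q) ?_
    · split_ifs <;> norm_num
    · have e : (fun t => (if L r q t then (1 : ℝ) else 0) ^ 2) = fun t => if L r q t then (1 : ℝ) else 0 := by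
        funext t
        split_ifs <;> norm_num
      rw [e]
      exact h.tl r q
  have h3 : ∀ᵐ θ : ℝ, ∀ j : ℕ, 1 ≤ j → ∀ b : ℕ, 2 ≤ b → ∀ ε : ℝ, 0 < ε → ∀ᶠ n : ℕ in atTop,
      S j (pre b n θ) ^ β ≤ (n : ℝ) ^ (1 + ε) := by
    rw [ae_all_iff]
    intro j
    by_cases hj : 1 ≤ j
    · simp only [hj, forall_true_left]
      exact Pool.Agent.X257.AE.ae_point_rpow (f := fun t => S j t ^ β)
        (fun t => Real.rpow_nonneg (h.S0 j t) β) (h.m1 j hj)
    · exact Eventually.of_forall fun θ hc => absurd hc hj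
  filter_upwards [h1, h2, h3] with θ g1 g2 g3 b hb
  have g4 : ∀ j : ℕ, 1 ≤ j → ∀ᶠ m : ℕ in atTop, S j (pre b m θ) ≤ (m : ℝ) ^ (2 / β) := by
    intro j hj
    filter_upwards [g3 j hj b hb 1 one_pos] with m hm
    have hm0 : (0 : ℝ) ≤ (m : ℝ) := Nat.cast_nonneg m
    have h5 : (S j (pre b m θ) ^ β) ^ (1 / β) ≤ ((m : ℝ) ^ ((1 : ℝ) + 1)) ^ (1 / β) :=
      Real.rpow_le_rpow (Real.rpow_nonneg (h.S0 _ _) _) hm (by positivity)
    rw [← Real.rpow_mul (h.S0 _ _), ← Real.rpow_mul hm0, mul_one_div_cancel hβ.ne', Real.rpow_one] at h5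
    refine h5.trans (le_of_eq ?_)
    congr 1
    ring
  refine ⟨fun j hj => ?_, fun r q => ?_, ?_, fun j hj => ?_, ?_⟩
  · filter_upwards [g1 j hj b hb C h.nn, eventually_ge_atTop 1] with x hx hx1
    refine hx.trans (mul_le_mul_of_nonneg_right h.le1 (Real.log_natCast_nonneg x))
  · have hpos : 0 < C / (2 : ℝ) ^ (β * (r + q)) := div_pos h.nn (by positivity)
    filter_upwards [g2 r q b hb _ hpos, eventually_ge_atTop 1] with x hx hx1
    rw [sum_filter]
    have e : ∑ m ∈ Icc 1 x, (if L r q (pre b m θ) then 1 / (m : ℝ) else 0) =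
        ∑ n ∈ Icc 1 x, (if L r q (pre b n θ) then (1 : ℝ) else 0) / (n : ℝ) := by
      refine sum_congr rfl fun n _ => ?_
      split_ifs <;> simp
    rw [e]
    refine hx.trans (mul_le_mul_of_nonneg_right ?_ (Real.log_natCast_nonneg x))
    rw [← add_div]
    exact div_le_div_of_nonneg_right h.le1 (by positivity)
  · filter_upwards [g1 1 le_rfl b hb C h.nn, eventually_ge_atTop 3] with x hx hx1
    have h6 : ∑ m ∈ Icc 1 x, (R (pre b m θ) : ℝ) / (m : ℝ) ≤
        ∑ m ∈ Icc 1 x, (2 * (1 / (m : ℝ)) + 2 / β * (S 1 (pre b m θ) ^ β / (m : ℝ))) := by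
      refine sum_le_sum fun m hm => ?_
      have hm0 : (0 : ℝ) < (m : ℝ) := by exact_mod_cast (mem_Icc.1 hm).1
      rw [div_le_iff₀ hm0]
      refine (rank_le (h.S0 1 _) hβ (h.R1 _)).trans (le_of_eq ?_)
      field_simp
    refine h6.trans ?_
    rw [sum_add_distrib, ← mul_sum, ← mul_sum]
    have h7 := harm x hx1
    have hl : 0 ≤ Real.log x := Real.log_natCast_nonneg x
    have h8 : 2 / β * ∑ m ∈ Icc 1 x, (S 1 (pre b m θ) ^ β / (m : ℝ)) ≤ 2 / β * ((C + C) * Real.log x) :=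
      mul_le_mul_of_nonneg_left hx (by positivity)
    have h9 : (4 + 2 / β * (C + C)) * Real.log x ≤ K β C * Real.log x :=
      mul_le_mul_of_nonneg_right h.le2 hl
    linarith
  · filter_upwards [g4 j hj, eventually_ge_atTop 1] with m hm hm1
    exact hm.trans (Real.rpow_le_rpow_of_exponent_le (by exact_mod_cast hm1) h.le3)
  · filter_upwards [g4 1 le_rfl, eventually_ge_atTop 3] with m hm hm3
    have hm0 : (0 : ℝ) < (m : ℝ) := by
      have : 0 < m := by omega
      exact_mod_cast this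
    have hm1 : (1 : ℝ) ≤ (m : ℝ) := by
      have : 1 ≤ m := by omega
      exact_mod_cast this
    have hl1 : (1 : ℝ) ≤ Real.log m := by
      rw [Real.le_log_iff_exp_le hm0]
      have : (3 : ℝ) ≤ m := by exact_mod_cast hm3
      linarith [Real.exp_one_lt_d9]
    have h5 := h.R1 (pre b m θ)
    have h6 : (2 : ℝ) ^ R (pre b m θ) ≤ 2 * (m : ℝ) ^ (2 / β) := by
      have : (1 : ℝ) ≤ (m : ℝ) ^ (2 / β) := Real.one_le_rpow hm1 (by positivity)
      linarith
    have h7 := Real.log_le_log (by positivity) h6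
    rw [Real.log_pow, Real.log_mul two_ne_zero (by positivity), Real.log_rpow hm0] at h7
    have h8 : (1 : ℝ) / 2 < Real.log 2 := by linarith [Real.log_two_gt_d9]
    have h10 : ((R (pre b m θ) : ℝ) - 1) * Real.log 2 ≤ 2 / β * Real.log m := by linarith
    have h9 : (R (pre b m θ) : ℝ) ≤ 1 + 4 / β * Real.log m := by
      by_contra hc
      push Not at hc
      have h11 : 4 / β * Real.log m < (R (pre b m θ) : ℝ) - 1 := by linarith
      have h12 : 0 < 4 / β * Real.log m := by positivity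
      have h13 : 4 / β * Real.log m * (1 / 2) < ((R (pre b m θ) : ℝ) - 1) * Real.log 2 := by
        nlinarith
      have : 4 / β * Real.log m * (1 / 2) = 2 / β * Real.log m := by ring
      linarith
    calc (R (pre b m θ) : ℝ) ≤ 1 + 4 / β * Real.log m := h9
      _ ≤ (1 + 4 / β) * Real.log m := by linarith
      _ ≤ K β C * Real.log m := mul_le_mul_of_nonneg_right h.le4 (by linarith)

open Classical in
theorem seqs (h : Hyp S R L β C) (n : ℕ → ℕ) (h0 : 1 ≤ n 0) (hn : ∀ i, 2 * n i ≤ n (i + 1)) :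
    ∀ᵐ θ : ℝ, ∀ b : ℕ, 2 ≤ b →
    (∀ j : ℕ, 1 ≤ j → ∀ᶠ J : ℕ in atTop,
      ∑ i ∈ range J, S j (pre b (n i) θ) ^ β ≤ K β C * J) ∧
    (∀ r q : ℕ, ∀ᶠ J : ℕ in atTop, (((range J).filter (fun i => L r q (pre b (n i) θ))).card : ℝ) ≤
      K β C / (2 : ℝ) ^ (β * (r + q)) * J) ∧
    ∀ᶠ J : ℕ in atTop, ∑ i ∈ range J, (R (pre b (n i) θ) : ℝ) ≤ K β C * J := by
  have hβ := h.pos
  have h1 : ∀ᵐ θ : ℝ, ∀ j : ℕ, 1 ≤ j → ∀ b : ℕ, 2 ≤ b → ∀ ε : ℝ, 0 < ε → ∀ᶠ J : ℕ in atTop,
      ∑ i ∈ range J, S j (pre b (n i) θ) ^ β ≤ (C + ε) * J := by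
    rw [ae_all_iff]
    intro j
    by_cases hj : 1 ≤ j
    · simp only [hj, forall_true_left]
      exact Pool.Agent.X257.AE.ae_fseq (f := fun t => S j t ^ β)
        (fun t => Real.rpow_nonneg (h.S0 j t) β) (h.m1 j hj) (h.m2 j hj) n h0 hn
    · exact Eventually.of_forall fun θ hc => absurd hc hj
  have h2 : ∀ᵐ θ : ℝ, ∀ r q : ℕ, ∀ b : ℕ, 2 ≤ b → ∀ ε : ℝ, 0 < ε → ∀ᶠ J : ℕ in atTop,
      ∑ i ∈ range J, (if L r q (pre b (n i) θ) then (1 : ℝ) else 0) ≤
        (C / (2 : ℝ) ^ (β * (r + q)) + ε) * J := by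
    rw [ae_all_iff]
    intro r
    rw [ae_all_iff]
    intro q
    refine Pool.Agent.X257.AE.ae_fseq (f := fun t => if L r q t then (1 : ℝ) else 0)
      (q := C / (2 : ℝ) ^ (β * (r + q))) (fun t => ?_) (h.tl r q) ?_ n h0 hn
    · split_ifs <;> norm_num
    · have e : (fun t => (if L r q t then (1 : ℝ) else 0) ^ 2) = fun t => if L r q t then (1 : ℝ) else 0 := by
        funext t
        split_ifs <;> norm_num
      rw [e]
      exact h.tl r q
  filter_upwards [h1, h2] with θ g1 g2 b hb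
  refine ⟨fun j hj => ?_, fun r q => ?_, ?_⟩
  · filter_upwards [g1 j hj b hb C h.nn] with J hJ
    exact hJ.trans (mul_le_mul_of_nonneg_right h.le1 (Nat.cast_nonneg J))
  · have hpos : 0 < C / (2 : ℝ) ^ (β * (r + q)) := div_pos h.nn (by positivity)
    filter_upwards [g2 r q b hb _ hpos] with J hJ
    rw [sum_boole] at hJ
    refine hJ.trans (mul_le_mul_of_nonneg_right ?_ (Nat.cast_nonneg J))
    rw [← add_div]
    exact div_le_div_of_nonneg_right h.le1 (by positivity)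
  · filter_upwards [g1 1 le_rfl b hb C h.nn] with J hJ
    have h6 : ∑ i ∈ range J, (R (pre b (n i) θ) : ℝ) ≤
        ∑ i ∈ range J, (2 + 2 / β * S 1 (pre b (n i) θ) ^ β) :=
      sum_le_sum fun i _ => rank_le (h.S0 1 _) hβ (h.R1 _)
    refine h6.trans ?_
    rw [sum_add_distrib, ← mul_sum, sum_const, card_range, nsmul_eq_mul]
    have hJ0 : (0 : ℝ) ≤ J := Nat.cast_nonneg J
    have h8 : 2 / β * ∑ i ∈ range J, S 1 (pre b (n i) θ) ^ β ≤ 2 / β * ((C + C) * J) :=
      mul_le_mul_of_nonneg_left hJ (by positivity)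
    have h9 : (4 + 2 / β * (C + C)) * J ≤ K β C * J := mul_le_mul_of_nonneg_right h.le2 hJ0
    linarith

end

/-! ### The families -/

instance : Countable ℤ[X] := by
  have h : Function.Surjective (fun l : List ℤ =>
      (∑ i ∈ Finset.range l.length, C (l.getD i 0) * X ^ i : ℤ[X])) := by
    intro p
    refine ⟨(List.range (p.natDegree + 1)).map p.coeff, ?_⟩
    simp only [List.length_map, List.length_range]
    conv_rhs => rw [p.as_sum_range_C_mul_X_pow]
    refine Finset.sum_congr rfl fun i hi => ?_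
    rw [Finset.mem_range] at hi
    congr 2
    simp [List.getD, hi]
  exact h.countable

instance : Countable Pencil := by
  have h : Function.Injective (fun P : Pencil => (⟨P.n, P.a, P.f, P.D⟩ :
      Σ n : Fin 3 → ℕ, (Fin 3 → ℤ) × (∀ k : Fin 3, Fin (n k) → ℤ[X]) × ℤ[X])) := by
    rintro ⟨n, a, f, D⟩ ⟨n', a', f', D'⟩ h
    simp only [Sigma.mk.injEq] at h
    obtain ⟨rfl, h⟩ := h
    simp only [heq_eq_eq, Prod.mk.injEq] at h
    obtain ⟨rfl, rfl, rfl⟩ := h
    rfl
  exact h.countable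

theorem size_nonneg (P : Pencil) (j : ℕ) (t : ℤ) : 0 ≤ P.size j t := by
  unfold Pencil.size
  split_ifs <;> positivity

theorem exC (P : Pencil) : ∃ β C : ℝ, 0 < β ∧ 0 < C ∧ (P.Ok → Hyp P.size P.rank P.Large β C) := by
  classical
  by_cases hP : P.Ok
  swap
  · exact ⟨1, 1, one_pos, one_pos, fun h => absurd h hP⟩
  obtain ⟨α, hα, h⟩ := Pool.Agent.Results.MP_157626_nt.PencilRankTails.result P.n P.a P.f P.D hP.a_ne hP.irr
    hP.dist hP.sub hP.D_ne hP.not_dvd hP.bal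
  obtain ⟨C, hC⟩ := h 3
  obtain ⟨C1, hC1⟩ := h 1
  have hsum : ∀ j : ℕ, 1 ≤ j → Avg (fun t => P.size j t ^ α) C 1 := by
    intro j hj N M hM hN
    obtain ⟨-, h2, -⟩ := hC N M hM hN
    refine le_trans (le_of_eq ?_) (h2 j hj)
    unfold Par
    rw [sum_filter]
    refine sum_congr rfl fun t _ => ?_
    dsimp only
    unfold Pencil.size Pencil.Smooth
    by_cases h3 : ∀ k, (P.D * u P.a P.f k).eval t ≠ 0
    · rw [if_pos h3, if_pos h3]
    · rw [if_neg h3, if_neg h3]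
      exact Real.zero_rpow hα.ne'
  have hC0 : 0 ≤ C := Pool.Agent.X257.AE.avg_nonneg
    (fun t => Real.rpow_nonneg (size_nonneg P 1 t) α) (hsum 1 le_rfl)
  have mono : ∀ {f : ℤ → ℝ} {p q : ℝ}, p ≤ q → Avg f p 1 → Avg f q 1 := by
    intro f p q hpq hf N M hM hN
    exact (hf N M hM hN).trans (mul_le_mul_of_nonneg_right hpq (Nat.cast_nonneg M))
  have e : ∀ j t, (P.size j t ^ (α / 2)) ^ 2 = P.size j t ^ α := by
    intro j t
    rw [← Real.rpow_natCast, ← Real.rpow_mul (size_nonneg _ _ _)]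
    congr 1
    push_cast
    ring
  have e' : ∀ j t, Real.sqrt (P.size j t ^ α) = P.size j t ^ (α / 2) := by
    intro j t
    rw [← e, Real.sqrt_sq (Real.rpow_nonneg (size_nonneg _ _ _) _)]
  refine ⟨α / 2, 1 + C, by positivity, by positivity, fun _ =>
    ⟨by positivity, by positivity, size_nonneg P, fun t => ?_, fun j hj => ?_, fun j hj => ?_, fun r q => ?_⟩⟩
  · by_cases ht : P.Smooth t
    · have e1 : P.rank t = rk (fib P.D P.a P.f t) := if_pos ht
      have e2 : P.size 1 t = (2 : ℝ) ^ rk (fib P.D P.a P.f t) *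
          (Nat.card (ShaTor (fib P.D P.a P.f t) (2 ^ 1)) : ℝ) ^ ((1 : ℝ) / (1 : ℕ)) := if_pos ht
      obtain ⟨h1, -, -⟩ := hC1 (t - 1) (t.natAbs + 1) (by omega)
        (by rw [pow_one, Int.abs_eq_natAbs]; omega)
      have hmem : t ∈ Par P.D P.a P.f (t - 1) (t.natAbs + 1) := by
        unfold Par
        rw [mem_filter, mem_Ioc]
        refine ⟨⟨by omega, by omega⟩, ht⟩
      have hfin := h1 t hmem 1
      have hne : Nonempty (ShaTor (fib P.D P.a P.f t) (2 ^ 1)) := ⟨⟨0, smul_zero _⟩⟩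
      have hpos : 0 < Nat.card (ShaTor (fib P.D P.a P.f t) (2 ^ 1)) := Nat.card_pos
      have h2 : (1 : ℝ) ≤ (Nat.card (ShaTor (fib P.D P.a P.f t) (2 ^ 1)) : ℝ) := by
        exact_mod_cast hpos
      rw [e1, e2, Nat.cast_one, div_one, Real.rpow_one]
      have h3 : (0 : ℝ) < (2 : ℝ) ^ rk (fib P.D P.a P.f t) := by positivity
      nlinarith
    · have e1 : P.rank t = 0 := if_neg ht
      have e2 : P.size 1 t = 0 := if_neg ht
      rw [e1, e2]
      norm_num
  · have h1 := Pool.Agent.X257.AE.avg_sqrt (fun t => Real.rpow_nonneg (size_nonneg P j t) α) (hsum j hj)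
    simp only [e'] at h1
    exact h1
  · simp only [e]
    exact mono (by linarith) (hsum j hj)
  · intro N M hM hN
    obtain ⟨-, -, h3⟩ := hC N M hM hN
    have h4 := h3 r q
    have hcard : ((Par P.D P.a P.f N M).filter (fun t => r ≤ rk (fib P.D P.a P.f t) ∧
        HasDiv (fib P.D P.a P.f t) q)) = (Ioc N (N + M)).filter (fun t => P.Large r q t) := by
      ext t
      unfold Par Pencil.Large Pencil.Smooth
      simp only [mem_filter]
      tauto
    rw [hcard] at h4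
    rw [sum_boole]
    refine h4.trans ?_
    rw [div_mul_eq_mul_div]
    have hr : (0 : ℝ) ≤ (r : ℝ) + q := by positivity
    have h5 : (2 : ℝ) ^ (α / 2 * ((r : ℝ) + q)) ≤ (2 : ℝ) ^ (α * ((r : ℝ) + q)) := by
      apply Real.rpow_le_rpow_of_exponent_le (by norm_num)
      nlinarith
    have h6 : (0 : ℝ) < (2 : ℝ) ^ (α / 2 * ((r : ℝ) + q)) := by positivity
    have h7 : C * M ≤ (1 + C) * M := mul_le_mul_of_nonneg_right (by linarith) (Nat.cast_nonneg M)
    have h8 : 0 ≤ C * M := mul_nonneg hC0 (Nat.cast_nonneg M)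
    exact div_le_div₀ (h8.trans h7) h7 h6 h5

open Classical in
/-- **Theorem.** There are positive numbers `β(P)` and `C(P)`, depending only on the family `P : y² =
x (x - D(t) u₀(t)) (x - D(t) u₁(t))`, such that the following holds for all the families with the
conditions `Pencil.Ok`. For almost every real number `θ`, for all these families and all `b ≥ 2`, with
`t_m = ⌊θ b ^ m⌋` and for all large `x` and `m`: the sum over `m ≤ x` of
`(2 ^ rank * #Ш[2 ^ j] ^ (1 / j)) ^ β / m` for the fibres at `t_m` is at most `C log x`, for every `j ≥ 1`;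
the sum of `1 / m` over the `m ≤ x` such that the fibre at `t_m` has rank at least `r` and a subgroup
`(ℚ₂ / ℤ₂) ^ q` in its Tate-Shafarevich group is at most `C / 2 ^ (β (r + q)) * log x`, for all `r` and `q`;
the sum over `m ≤ x` of `rank / m` is at most `C log x`; and for the fibre at `t_m` the number
`2 ^ rank * #Ш[2 ^ j] ^ (1 / j)` is at most `m ^ C` and the rank is at most `C log m`. For every sequence
`n_0, n_1, …` with `n_0 ≥ 1` and `n_{i+1} ≥ 2 n_i` and for almost every `θ`, for all the families and all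
`b ≥ 2`, the arithmetic means over `i < J` of `(2 ^ rank * #Ш[2 ^ j] ^ (1 / j)) ^ β` and of the rank of the
fibre at `t_m`, `m = n_i`, are at most `C`, and the proportion of the `i < J` for which this fibre has rank at
least `r` and a subgroup `(ℚ₂ / ℤ₂) ^ q` in its Tate-Shafarevich group is at most `C / 2 ^ (β (r + q))`, for all
large `J`. -/
theorem result : ∃ β C : Pencil → ℝ, (∀ P, 0 < β P ∧ 0 < C P) ∧
    (∀ᵐ θ : ℝ, ∀ P : Pencil, P.Ok → ∀ b : ℕ, 2 ≤ b →
      (∀ j : ℕ, 1 ≤ j → ∀ᶠ x : ℕ in atTop,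
        ∑ m ∈ Icc 1 x, P.size j ⌊θ * (b : ℝ) ^ m⌋ ^ β P / (m : ℝ) ≤ C P * Real.log x) ∧
      (∀ r q : ℕ, ∀ᶠ x : ℕ in atTop,
        ∑ m ∈ (Icc 1 x).filter (fun m => P.Large r q ⌊θ * (b : ℝ) ^ m⌋), 1 / (m : ℝ) ≤
          C P / (2 : ℝ) ^ (β P * (r + q)) * Real.log x) ∧
      (∀ᶠ x : ℕ in atTop,
        ∑ m ∈ Icc 1 x, (P.rank ⌊θ * (b : ℝ) ^ m⌋ : ℝ) / (m : ℝ) ≤ C P * Real.log x) ∧
      (∀ j : ℕ, 1 ≤ j → ∀ᶠ m : ℕ in atTop, P.size j ⌊θ * (b : ℝ) ^ m⌋ ≤ (m : ℝ) ^ C P) ∧
      ∀ᶠ m : ℕ in atTop, (P.rank ⌊θ * (b : ℝ) ^ m⌋ : ℝ) ≤ C P * Real.log m) ∧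
    ∀ n : ℕ → ℕ, 1 ≤ n 0 → (∀ i, 2 * n i ≤ n (i + 1)) →
      ∀ᵐ θ : ℝ, ∀ P : Pencil, P.Ok → ∀ b : ℕ, 2 ≤ b →
        (∀ j : ℕ, 1 ≤ j → ∀ᶠ J : ℕ in atTop,
          ∑ i ∈ range J, P.size j ⌊θ * (b : ℝ) ^ n i⌋ ^ β P ≤ C P * J) ∧
        (∀ r q : ℕ, ∀ᶠ J : ℕ in atTop,
          (((range J).filter (fun i => P.Large r q ⌊θ * (b : ℝ) ^ n i⌋)).card : ℝ) ≤
            C P / (2 : ℝ) ^ (β P * (r + q)) * J) ∧
        ∀ᶠ J : ℕ in atTop, ∑ i ∈ range J, (P.rank ⌊θ * (b : ℝ) ^ n i⌋ : ℝ) ≤ C P * J := by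
  choose β C hβ hC h using exC
  refine ⟨β, fun P => K (β P) (C P), fun P => ⟨hβ P, ?_⟩, ?_, fun n h0 hn => ?_⟩
  · have h1 := hβ P
    have h2 := hC P
    unfold K
    positivity
  · rw [ae_all_iff]
    intro P
    by_cases hP : P.Ok
    · simp only [hP, forall_true_left]
      exact logs (h P hP)
    · exact Eventually.of_forall fun θ hc => absurd hc hP
  · rw [ae_all_iff]
    intro P
    by_cases hP : P.Ok
    · simp only [hP, forall_true_left]
      exact seqs (h P hP) n h0 hn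
    · exact Eventually.of_forall fun θ hc => absurd hc hP

end Pool.Agent.Results.MP_788af2_nt.DigitSequences
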