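import Pool.Agent.Results.MP_788af2_nt.ApproximationTails
import Pool.Agent.T6.H39.FL.Line
import Pool.Agent.T6.H39.FL.Dig
import Pool.Agent.T6.H39.FL.Frac

/-!
# The ranks over the rational numbers with a given denominator

Let `F_k = a_k ∏_i (l k i) ^ (m k i)`, `k = 0, 1, 2`, be binary forms with `F_0 - F_1 = F_2`, products of
pairwise non-proportional linear forms `l k i` (`i = 1, …, n`, `n > 0` even) with odd exponents. The curves
`E_t : y² = x (x - F_0 (u, v)) (x - F_1 (u, v))`, `t = u / v` in lowest terms, are the fibres of an elliptic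
surface over the projective line with full rational 2-torsion. We assume that the fibre at infinity is an
elliptic curve. Let `N (t)` be the sum of the rank of `E_t` and of the corank of the 2-primary part of its
Tate-Shafarevich group.

The known bounds for the tails of `N (t)` for these surfaces average over both coordinates `u` and `v`. Here
the denominator `v = w` is fixed. So we get one-parameter families, for example (`w = 1`) the fibres at the
integers. We show: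

* in the intervals `N < u ≤ N + M` the proportion of the `t = u / w` with `N (t) ≥ r` decays faster than
  `A ^ (-r)`, for every `A`, uniformly in `|N|, w ≤ M ^ L`, up to a power of `∏_{p ∣ w} (1 + 1 / p)`; and the
  mean of `A ^ N (t)` is bounded in the same way outside of a sparse set;
* for almost every real number `θ`, for all these surfaces, all `w` and all bases `b`, the same is true for the
  very sparse sequence `t_m = ⌊θ b ^ m⌋ / w` of rational numbers which are given by the first digits of `θ` in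
  base `b` (logarithmic means over the `m`, and arithmetic means along the sequences of `m` which at least
  double at each step); and if `g (m)` tends to infinity, however slowly, then `N (t_m) ≤ g (m)` for all the
  `m` outside of a set of logarithmic density zero.

The tails in one-parameter families in the starting file `MP_a43263_nt.PencilTails` are for squarefree
differences of the roots, and so for exponents equal to one; the family of the curves with torsion group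
`ℤ / 2 × ℤ / 6` for example needs the exponent `3`.
-/

set_option autoImplicit false

namespace Pool.Agent.Results.MP_788af2_nt.FixedDenominators

open Finset Filter MeasureTheory
open Pool.Agent.Results.MP_788af2_nt.RationalApproximations (Surface)
open Pool.Agent.Results.MP_788af2_nt.ApproximationTails (total bad pow_le)
open Pool.Agent.Results.MP_6cf96a_nt.RankTailsInShortSquares (famS)
open Pool.Agent.X257.AE (indP indP_nonneg nd Avg pre)
open Pool.Agent.TH344.BF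
open Pool.Agent.T6.H39.FL (Frac finite_frac frac_sum indQ indQ_nonneg ncard_frac sum_frac avg_div HT gg
  line_w bad_line)

/-- the fibre at infinity is an elliptic curve -/
def AtInfinity (S : Surface) : Prop := ∀ k, S.F k 1 0 ≠ 0

/-- `(∏_{p ∣ w} (1 + 1 / p)) ^ (6 n)` -/
noncomputable def G (S : Surface) (w : ℕ) : ℝ :=
  (∏ p ∈ w.primeFactors, (1 + 1 / (p : ℝ))) ^ (6 * S.n)

/-- the fibre at `t` is an elliptic curve, and the sum of its rank and of the corank of the 2-primary part of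
its Tate-Shafarevich group is at least `r` -/
def High (S : Surface) (r : ℕ) : Set ℚ := {t | S.Smooth t ∧ r ≤ total S t}

/-- the rational number `⌊θ b ^ m⌋ / w` -/
noncomputable def pt (θ : ℝ) (b m w : ℕ) : ℚ := (⌊θ * (b : ℝ) ^ m⌋ : ℚ) / w

/-! ### Proof -/

theorem one_le_G (S : Surface) (w : ℕ) : 1 ≤ G S w := by
  unfold G
  refine one_le_pow₀ (one_le_prod fun p _ => ?_)
  have : 0 ≤ 1 / (p : ℝ) := by positivity
  linarith

theorem l_ne {S : Surface} (hS : S.Ok) (h : AtInfinity S) (j : Fin 3 × Fin S.n) : (S.l j).1 ≠ 0 := by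
  intro hj
  apply h j.1
  unfold Surface.F
  apply mul_eq_zero_of_right
  apply prod_eq_zero (mem_univ j.2)
  have h1 : (S.l (j.1, j.2)).1 = 0 := hj
  rw [h1, zero_mul, mul_zero, add_zero]
  exact zero_pow (hS.odd _).pos.ne'

/-- the data for one surface and one `A` -/
theorem exT (S : Surface) (A : ℕ) : ∃ T : Finset (Fin 3 × Fin S.n → ℝ), S.Ok → 0 < S.n →
    AtInfinity S → 1 ≤ A → (∀ t ∈ T, ∀ j, 0 < t j) ∧
    (∀ (L : ℕ) (ε : ℝ), 0 < ε → ∃ M0 : ℕ, ∀ (N : ℤ) (M w : ℕ), M0 ≤ M → |N| ≤ (M : ℤ) ^ L →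
      w ≤ M ^ L → ∑ u ∈ Ioc N (N + M), indP (bad S T) (u, (w : ℤ)) ≤ ε * M) ∧
    ∀ L : ℕ, ∃ C : ℝ, 0 ≤ C ∧ ∀ (N : ℤ) (M w : ℕ), 1 ≤ M → 1 ≤ w → |N| ≤ (M : ℤ) ^ L →
      w ≤ M ^ L → ∑ u ∈ Ioc N (N + M), WBl S.l S.m S.a (2 * A) T (u, (w : ℤ)) ≤ C * M * G S w := by
  by_cases h : S.Ok ∧ 0 < S.n ∧ AtInfinity S ∧ 1 ≤ A
  swap
  · exact ⟨∅, fun h1 h2 h3 h4 => absurd ⟨h1, h2, h3, h4⟩ h⟩
  obtain ⟨h1, h2, h3, h4⟩ := h
  obtain ⟨T, hT1, hT2, hC⟩ := line_w (famS S h1 h2) (l_ne h1 h3) (k := 2 * A) (by omega)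
  refine ⟨T, fun _ _ _ _ => ⟨hT1, fun L ε hε => ?_, fun L => ?_⟩⟩
  · obtain ⟨M0, hM0⟩ := bad_line (fun j => (S.l j).1) (fun j => (S.l j).2) (l_ne h1 h3) T hT1 hT2
      L ε hε
    refine ⟨M0, fun N M w hM hN hw => hM0 N w M hM hN ?_⟩
    rw [Nat.abs_cast]
    exact_mod_cast hw
  · obtain ⟨C, hC0, hC1⟩ := hC L
    refine ⟨C, hC0, fun N M w hM hw hN hwL => ?_⟩
    have hN' : N.natAbs ≤ M ^ L := by
      rw [Int.abs_eq_natAbs] at hN
      exact_mod_cast hN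
    have h5 := hC1 N w M hM (by omega) hN' (by rw [Int.natAbs_natCast]; exact hwL)
    refine h5.trans (le_of_eq ?_)
    unfold gg G
    rw [Int.natAbs_natCast, show 2 * (3 * S.n) = 6 * S.n by ring]

/-- one fibre -/
theorem sq_le {S : Surface} (hS : S.Ok) {A : ℕ} {T : Finset (Fin 3 × Fin S.n → ℝ)}
    (hT : ∀ t ∈ T, ∀ j, 0 < t j) {t : ℚ} (ht : S.Smooth t) (hb : nd t ∉ bad S T) :
    (((2 : ℝ) ^ A) ^ total S t) ^ 2 ≤ WBl S.l S.m S.a (2 * A) T (nd t) := by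
  have h1 := pow_le hS (k := A) ht hb
  have h2 := WBl_nonneg S.l S.m S.a (2 * A) hT (nd t)
  have h3 := pow_le_pow_left₀ (by positivity) h1 2
  rwa [Real.sq_sqrt h2] at h3

open Classical in
/-- `A ^ N (t)` outside of the exceptional set -/
noncomputable def mo (S : Surface) (A : ℕ) (Z : Set ℚ) (t : ℚ) : ℝ :=
  if S.Smooth t ∧ ¬ t ∈ Z then (A : ℝ) ^ total S t else 0

theorem mo_nonneg (S : Surface) (A : ℕ) (Z : Set ℚ) (t : ℚ) : 0 ≤ mo S A Z t := by
  unfold mo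
  split_ifs <;> positivity

theorem mo_le {S : Surface} (hS : S.Ok) {A : ℕ} {T : Finset (Fin 3 × Fin S.n → ℝ)}
    (hT : ∀ t ∈ T, ∀ j, 0 < t j) (t : ℚ) :
    mo S A {t | nd t ∈ bad S T} t ≤ WBl S.l S.m S.a (2 * A) T (nd t) ∧
      mo S A {t | nd t ∈ bad S T} t ^ 2 ≤ WBl S.l S.m S.a (2 * A) T (nd t) := by
  have h2 := WBl_nonneg S.l S.m S.a (2 * A) hT (nd t)
  by_cases h : S.Smooth t ∧ ¬ t ∈ {t | nd t ∈ bad S T}
  · have e : mo S A {t | nd t ∈ bad S T} t = (A : ℝ) ^ total S t := if_pos h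
    rw [e]
    have h3 := sq_le hS hT (A := A) h.1 h.2
    have h4 : (A : ℝ) ≤ 2 ^ A := by exact_mod_cast (Nat.lt_two_pow_self (n := A)).le
    have h5 : (A : ℝ) ^ total S t ≤ ((2 : ℝ) ^ A) ^ total S t :=
      pow_le_pow_left₀ (Nat.cast_nonneg A) h4 _
    have h6 : (1 : ℝ) ≤ ((2 : ℝ) ^ A) ^ total S t := one_le_pow₀ (one_le_pow₀ (by norm_num))
    have h7 : (0 : ℝ) ≤ (A : ℝ) ^ total S t := by positivity
    constructor
    · nlinarith
    · exact (pow_le_pow_left₀ h7 h5 2).trans h3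
  · have e : mo S A {t | nd t ∈ bad S T} t = 0 := if_neg h
    rw [e]
    exact ⟨h2, by simpa using h2⟩

/-- the tails -/
theorem high_le {S : Surface} (hS : S.Ok) {A : ℕ} {T : Finset (Fin 3 × Fin S.n → ℝ)}
    (hT : ∀ t ∈ T, ∀ j, 0 < t j) (r : ℕ) (t : ℚ) :
    indQ (High S r) t ≤ indP (bad S T) (nd t) +
      1 / ((2 : ℝ) ^ A) ^ r * WBl S.l S.m S.a (2 * A) T (nd t) := by
  have h2 := WBl_nonneg S.l S.m S.a (2 * A) hT (nd t)
  have h3 := indP_nonneg (bad S T) (nd t)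
  have h4 : 0 ≤ 1 / ((2 : ℝ) ^ A) ^ r * WBl S.l S.m S.a (2 * A) T (nd t) :=
    mul_nonneg (by positivity) h2
  by_cases ht : t ∈ High S r
  · have e : indQ (High S r) t = 1 := if_pos ht
    rw [e]
    by_cases hb : nd t ∈ bad S T
    · have e1 : indP (bad S T) (nd t) = 1 := if_pos hb
      linarith
    · have h5 := sq_le hS hT (A := A) ht.1 hb
      have h6 : ((2 : ℝ) ^ A) ^ r ≤ ((2 : ℝ) ^ A) ^ total S t :=
        pow_le_pow_right₀ (one_le_pow₀ (by norm_num)) ht.2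
      have h7 : (1 : ℝ) ≤ ((2 : ℝ) ^ A) ^ total S t := one_le_pow₀ (one_le_pow₀ (by norm_num))
      have h8 : 1 ≤ 1 / ((2 : ℝ) ^ A) ^ r * WBl S.l S.m S.a (2 * A) T (nd t) := by
        rw [one_div, inv_mul_eq_div, le_div_iff₀ (by positivity), one_mul]
        nlinarith
      linarith
  · have e : indQ (High S r) t = 0 := if_neg ht
    rw [e]
    linarith

theorem two_mul_le (A : ℕ) (hA : 1 ≤ A) : 2 * A ≤ 2 ^ A := by
  have e2 : ∀ n : ℕ, 2 * (n + 1) ≤ 2 ^ (n + 1) := by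
    intro n
    induction n with
    | zero => norm_num
    | succ n ih =>
      have : 2 ^ (n + 1 + 1) = 2 * 2 ^ (n + 1) := by ring
      omega
  obtain ⟨m, rfl⟩ : ∃ m, A = m + 1 := ⟨A - 1, by omega⟩
  exact e2 m

/-- the exceptional set -/
noncomputable def ZZ (S : Surface) (A : ℕ) : Set ℚ := {t | nd t ∈ bad S (exT S A).choose}

section

variable {S : Surface} (hS : S.Ok) (hn : 0 < S.n) (hi : AtInfinity S) {A : ℕ} (hA : 1 ≤ A)

include hS hn hi hA

theorem zed (L : ℕ) {ε : ℝ} (hε : 0 < ε) : ∃ M0 : ℕ, ∀ (N : ℤ) (M w : ℕ), M0 ≤ M →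
    |N| ≤ (M : ℤ) ^ L → w ≤ M ^ L → ∑ᶠ t ∈ Frac N M w, indQ (ZZ S A) t ≤ ε * M := by
  obtain ⟨M0, hM0⟩ := ((exT S A).choose_spec hS hn hi hA).2.1 L ε hε
  refine ⟨M0, fun N M w hM hN hw => ?_⟩
  refine (frac_sum N M w _ (indP (bad S (exT S A).choose)) (indP_nonneg _) fun t _ => ?_).trans
    (hM0 N M w hM hN hw)
  exact le_rfl

theorem mom (L : ℕ) : ∃ C : ℝ, 0 ≤ C ∧ ∀ (N : ℤ) (M w : ℕ), 1 ≤ M → 1 ≤ w → |N| ≤ (M : ℤ) ^ L →
    w ≤ M ^ L → ∑ᶠ t ∈ Frac N M w, mo S A (ZZ S A) t ≤ C * M * G S w ∧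
      ∑ᶠ t ∈ Frac N M w, mo S A (ZZ S A) t ^ 2 ≤ C * M * G S w := by
  have hT := ((exT S A).choose_spec hS hn hi hA).1
  obtain ⟨C, hC0, hC⟩ := ((exT S A).choose_spec hS hn hi hA).2.2 L
  refine ⟨C, hC0, fun N M w hM hw hN hwL => ⟨?_, ?_⟩⟩
  · exact (frac_sum N M w _ (WBl S.l S.m S.a (2 * A) (exT S A).choose)
      (fun x => WBl_nonneg _ _ _ _ hT x) fun t _ => (mo_le hS hT t).1).trans (hC N M w hM hw hN hwL)
  · exact (frac_sum N M w (fun t => mo S A (ZZ S A) t ^ 2)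
      (WBl S.l S.m S.a (2 * A) (exT S A).choose)
      (fun x => WBl_nonneg _ _ _ _ hT x) fun t _ => (mo_le hS hT t).2).trans (hC N M w hM hw hN hwL)

theorem tails (L : ℕ) : ∃ r0 : ℕ, ∀ r : ℕ, r0 ≤ r → ∃ M0 : ℕ, ∀ (N : ℤ) (M w : ℕ), M0 ≤ M →
    1 ≤ w → |N| ≤ (M : ℤ) ^ L → w ≤ M ^ L →
    ∑ᶠ t ∈ Frac N M w, indQ (High S r) t ≤ G S w / (A : ℝ) ^ r * M := by
  have hT := ((exT S A).choose_spec hS hn hi hA).1
  obtain ⟨C, hC0, hC⟩ := ((exT S A).choose_spec hS hn hi hA).2.2 L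
  have hA0 : (0 : ℝ) < A := by
    have : 0 < A := hA
    exact_mod_cast this
  refine ⟨⌈2 * C⌉₊, fun r hr => ?_⟩
  obtain ⟨M0, hM0⟩ := ((exT S A).choose_spec hS hn hi hA).2.1 L (1 / 2 * (1 / (A : ℝ) ^ r))
    (by positivity)
  refine ⟨M0 + 1, fun N M w hM hw hN hwL => ?_⟩
  have h1 := hM0 N M w (by omega) hN hwL
  have h2 := hC N M w (by omega) hw hN hwL
  refine (frac_sum N M w _ (fun x => indP (bad S (exT S A).choose) x +
      1 / ((2 : ℝ) ^ A) ^ r * WBl S.l S.m S.a (2 * A) (exT S A).choose x)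
      (fun x => add_nonneg (indP_nonneg _ _) (mul_nonneg (by positivity) (WBl_nonneg _ _ _ _ hT x)))
      fun t _ => high_le hS hT r t).trans ?_
  rw [sum_add_distrib, ← mul_sum]
  have h4 : 1 / ((2 : ℝ) ^ A) ^ r * C ≤ 1 / 2 * (1 / (A : ℝ) ^ r) := by
    have e1 : (2 : ℝ) * A ≤ 2 ^ A := by exact_mod_cast two_mul_le A hA
    have e2 : (2 * (A : ℝ)) ^ r ≤ ((2 : ℝ) ^ A) ^ r := pow_le_pow_left₀ (by positivity) e1 r
    have e3 : 2 * C ≤ 2 ^ r := by
      have e4 : 2 * C ≤ ⌈2 * C⌉₊ := Nat.le_ceil _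
      have e5 : (⌈2 * C⌉₊ : ℝ) ≤ r := by exact_mod_cast hr
      have e6 : (r : ℝ) ≤ 2 ^ r := by
        have : r ≤ 2 ^ r := Nat.lt_two_pow_self.le
        exact_mod_cast this
      linarith
    have e4 : 1 / ((2 : ℝ) ^ A) ^ r ≤ 1 / (2 * (A : ℝ)) ^ r :=
      one_div_le_one_div_of_le (by positivity) e2
    calc 1 / ((2 : ℝ) ^ A) ^ r * C ≤ 1 / (2 * (A : ℝ)) ^ r * C := mul_le_mul_of_nonneg_right e4 hC0
      _ = 1 / (A : ℝ) ^ r * (C / 2 ^ r) := by
          rw [mul_pow]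
          field_simp
      _ ≤ 1 / (A : ℝ) ^ r * (1 / 2) := by
          refine mul_le_mul_of_nonneg_left ?_ (by positivity)
          rw [div_le_iff₀ (by positivity)]
          linarith
      _ = 1 / 2 * (1 / (A : ℝ) ^ r) := by ring
  have hG := one_le_G S w
  have hM0' : (0 : ℝ) ≤ M := Nat.cast_nonneg M
  have hh : (0 : ℝ) ≤ 1 / 2 * (1 / (A : ℝ) ^ r) := by positivity
  have h5 : 1 / ((2 : ℝ) ^ A) ^ r * ∑ u ∈ Ioc N (N + (M : ℤ)),
      WBl S.l S.m S.a (2 * A) (exT S A).choose (u, (w : ℤ)) ≤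
      1 / 2 * (1 / (A : ℝ) ^ r) * (M * G S w) := by
    refine (mul_le_mul_of_nonneg_left h2 (by positivity)).trans ?_
    have e : 1 / ((2 : ℝ) ^ A) ^ r * (C * M * G S w) = 1 / ((2 : ℝ) ^ A) ^ r * C * (M * G S w) := by
      ring
    rw [e]
    exact mul_le_mul_of_nonneg_right h4 (mul_nonneg hM0' (by linarith))
  have h6 : 1 / 2 * (1 / (A : ℝ) ^ r) * M ≤ 1 / 2 * (1 / (A : ℝ) ^ r) * (M * G S w) := by
    refine mul_le_mul_of_nonneg_left ?_ hh
    exact le_mul_of_one_le_right hM0' hG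
  have h7 : G S w / (A : ℝ) ^ r * M = 1 / 2 * (1 / (A : ℝ) ^ r) * (M * G S w) +
      1 / 2 * (1 / (A : ℝ) ^ r) * (M * G S w) := by ring
  rw [h7]
  exact add_le_add (h1.trans h6) h5

end

theorem avg_mono {f : ℤ → ℝ} {p q : ℝ} {M0 : ℕ} (hpq : p ≤ q) (h : Avg f p M0) : Avg f q M0 :=
  fun N M hM hN => (h N M hM hN).trans (mul_le_mul_of_nonneg_right hpq (Nat.cast_nonneg M))

/-- the hypotheses of the laws of large numbers -/
theorem ht (S : Surface) (w : ℕ) : ∃ (r0 : ℕ → ℕ) (C : ℕ → ℝ), S.Ok → 0 < S.n → AtInfinity S →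
    1 ≤ w → HT (fun u => total S ((u : ℚ) / w)) (fun u => S.Smooth ((u : ℚ) / w))
      (fun A u => ((u : ℚ) / w) ∈ ZZ S A) r0 C := by
  classical
  by_cases h : S.Ok ∧ 0 < S.n ∧ AtInfinity S ∧ 1 ≤ w
  swap
  · exact ⟨fun _ => 0, fun _ => 0, fun h1 h2 h3 h4 => absurd ⟨h1, h2, h3, h4⟩ h⟩
  obtain ⟨hS, hn, hi, hw⟩ := h
  obtain ⟨B, hB⟩ : ∃ B : ℝ, B = ∑ d ∈ w.divisors, G S d := ⟨_, rfl⟩
  have hB0 : 0 ≤ B := by
    rw [hB]
    exact sum_nonneg fun d _ => by linarith [one_le_G S d]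
  have hdw : ∀ {d M : ℕ}, d ∈ w.divisors → w ≤ M → d ≤ M ^ 3 := by
    intro d M hd hM
    exact ((Nat.divisor_le hd).trans hM).trans (Nat.le_self_pow (by norm_num) M)
  have hr : ∀ A : ℕ, ∃ r0 : ℕ, 1 ≤ A → ∀ r : ℕ, r0 ≤ r → ∃ M0 : ℕ, ∀ (N : ℤ) (M d : ℕ), M0 ≤ M →
      1 ≤ d → |N| ≤ (M : ℤ) ^ 3 → d ≤ M ^ 3 →
      ∑ᶠ t ∈ Frac N M d, indQ (High S r) t ≤ G S d / ((2 * A : ℕ) : ℝ) ^ r * M := by
    intro A
    by_cases hA : 1 ≤ A
    · obtain ⟨r0, h1⟩ := tails hS hn hi (A := 2 * A) (by omega) 3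
      exact ⟨r0, fun _ => h1⟩
    · exact ⟨0, fun h => absurd h hA⟩
  choose r0 hr0 using hr
  have hC : ∀ A : ℕ, ∃ C : ℝ, 0 ≤ C ∧ (1 ≤ A → ∀ (N : ℤ) (M d : ℕ), 1 ≤ M → 1 ≤ d →
      |N| ≤ (M : ℤ) ^ 3 → d ≤ M ^ 3 → ∑ᶠ t ∈ Frac N M d, mo S A (ZZ S A) t ≤ C * M * G S d ∧
        ∑ᶠ t ∈ Frac N M d, mo S A (ZZ S A) t ^ 2 ≤ C * M * G S d) := by
    intro A
    by_cases hA : 1 ≤ A
    · obtain ⟨C, h1, h2⟩ := mom hS hn hi hA 3
      exact ⟨C, h1, fun _ => h2⟩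
    · exact ⟨0, le_rfl, fun h => absurd h hA⟩
  choose C hC0 hC1 using hC
  refine ⟨fun A => max (r0 A) ⌈2 * B⌉₊, fun A => C A * B, fun _ _ _ _ =>
    ⟨fun A => mul_nonneg (hC0 A) hB0, fun A hA r hr => ?_, fun A hA ε hε => ?_, fun A hA => ?_⟩⟩
  · obtain ⟨M0, hM0⟩ := hr0 A hA r ((le_max_left _ _).trans hr)
    have hA0 : (0 : ℝ) < A := by
      have : 0 < A := hA
      exact_mod_cast this
    refine ⟨max M0 w, ?_⟩
    refine avg_mono ?_ (avg_div (indQ_nonneg (High S r))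
      (fun d => G S d / ((2 * A : ℕ) : ℝ) ^ r) (max M0 w) hw fun d hd N M hM hN => ?_)
    · rw [← sum_div, ← hB]
      have e3 : 2 * B ≤ 2 ^ r := by
        have e4 : 2 * B ≤ ⌈2 * B⌉₊ := Nat.le_ceil _
        have e5 : (⌈2 * B⌉₊ : ℝ) ≤ r := by exact_mod_cast (le_max_right _ _).trans hr
        have e6 : (r : ℝ) ≤ 2 ^ r := by
          have : r ≤ 2 ^ r := Nat.lt_two_pow_self.le
          exact_mod_cast this
        linarith
      push_cast
      rw [mul_pow]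
      have e7 : B / ((2 : ℝ) ^ r * (A : ℝ) ^ r) = B / 2 ^ r * (1 / (A : ℝ) ^ r) := by
        field_simp
      rw [e7]
      refine mul_le_mul_of_nonneg_right ?_ (by positivity)
      rw [div_le_iff₀ (by positivity)]
      linarith
    · exact hM0 N M d ((le_max_left _ _).trans hM) (Nat.pos_of_mem_divisors hd) hN
        (hdw hd ((le_max_right _ _).trans hM))
  · obtain ⟨c, hc⟩ : ∃ c : ℕ, c = w.divisors.card := ⟨_, rfl⟩
    have hc0 : (0 : ℝ) < c := by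
      have : 0 < c := by
        rw [hc]
        exact card_pos.2 ⟨1, Nat.mem_divisors.2 ⟨one_dvd _, by omega⟩⟩
      exact_mod_cast this
    obtain ⟨M0, hM0⟩ := zed hS hn hi hA 3 (show 0 < ε / c by positivity)
    refine ⟨max M0 w, ?_⟩
    refine avg_mono ?_ (avg_div (indQ_nonneg (ZZ S A))
      (fun _ => ε / c) (max M0 w) hw fun d hd N M hM hN => ?_)
    · rw [sum_const, nsmul_eq_mul, ← hc, mul_div_cancel₀ _ hc0.ne']
    · exact hM0 N M d ((le_max_left _ _).trans hM) hN (hdw hd ((le_max_right _ _).trans hM))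
  · have hsum : ∑ d ∈ w.divisors, C A * G S d ≤ C A * B := by
      rw [← mul_sum, hB]
    have hw1 : ∀ {M : ℕ}, w ≤ M → 1 ≤ M := fun h => hw.trans h
    refine ⟨w, ?_, ?_⟩
    · refine avg_mono hsum (avg_div (mo_nonneg S A (ZZ S A)) (fun d => C A * G S d) w hw
        fun d hd N M hM hN => ?_)
      refine (hC1 A hA N M d (hw1 hM) (Nat.pos_of_mem_divisors hd) hN (hdw hd hM)).1.trans
        (le_of_eq (by ring))
    · refine avg_mono hsum (avg_div (F := fun t => mo S A (ZZ S A) t ^ 2) (fun t => sq_nonneg _)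
        (fun d => C A * G S d) w hw fun d hd N M hM hN => ?_)
      refine (hC1 A hA N M d (hw1 hM) (Nat.pos_of_mem_divisors hd) hN (hdw hd hM)).2.trans
        (le_of_eq (by ring))

open Classical in
/-- **Theorem.** There are sets `Z (S, A)` of rational numbers with the following properties. Let `S` be a
surface with `n > 0` which satisfies the conditions `Ok`, such that the fibre at infinity is an elliptic
curve, let `A ≥ 1` and `G (w) = (∏_{p ∣ w} (1 + 1 / p)) ^ (6 n)`. Let `N (t)` be the sum of the rank and of the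
corank of the 2-primary part of the Tate-Shafarevich group of the fibre at `t`.

(I) For every `L`, for `M ≥ 1`, `w ≥ 1` and `|N|, w ≤ M ^ L` we consider the rational numbers `t` with
denominator `w` and numerator in `(N, N + M]`. At most `ε M` of them are in `Z (S, A)` if `M ≥ M₀ (ε)`; the sum
of `A ^ N (t)` over the others is at most `C M G (w)`; and for `r ≥ r₀` and `M ≥ M₀ (r)` at most
`M G (w) / A ^ r` of them have `N (t) ≥ r`. Here `M₀, C, r₀` depend only on `S`, `A`, `L` (and `ε` or `r`).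

(II) There are numbers `r₀ (S, w, A)` and `C (S, w, A)` such that for almost every real `θ`, for all `S`, all
`w ≥ 1` and all `b ≥ 2`, with `t_m = ⌊θ b ^ m⌋ / w`: (1) for `A ≥ 1`, `r ≥ r₀` and all large `x` the sum of
`1 / m` over the `m ≤ x` with `N (t_m) ≥ r` is at most `log x / A ^ r`; (2) if `g (m)` tends to infinity, the
sum of `1 / m` over the `m ≤ x` with `N (t_m) > g (m)` is at most `ε log x` for every `ε > 0` and all large
`x`; (3) so is the sum of `1 / m` over the `m ≤ x` with `t_m ∈ Z (S, A)`, and the sum of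
`A ^ N (t_m) / m` over the other `m ≤ x` is at most `C log x` for all large `x`.

(III) For every sequence `n_0 ≥ 1`, `n_{i+1} ≥ 2 n_i` and almost every `θ` the same is true for the
arithmetic means over the `t_m`, `m = n_i`, `i < J`. -/
theorem result : ∃ Z : Surface → ℕ → Set ℚ,
    (∀ S : Surface, S.Ok → 0 < S.n → AtInfinity S → ∀ A : ℕ, 1 ≤ A → ∀ L : ℕ,
      (∀ ε : ℝ, 0 < ε → ∃ M₀ : ℕ, ∀ (N : ℤ) (M w : ℕ), M₀ ≤ M → |N| ≤ (M : ℤ) ^ L → w ≤ M ^ L →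
        ((Frac N M w ∩ Z S A).ncard : ℝ) ≤ ε * M) ∧
      (∃ C : ℝ, ∀ (N : ℤ) (M w : ℕ), 1 ≤ M → 1 ≤ w → |N| ≤ (M : ℤ) ^ L → w ≤ M ^ L →
        ∑ᶠ t ∈ Frac N M w ∩ {t | S.Smooth t ∧ t ∉ Z S A}, (A : ℝ) ^ total S t ≤ C * M * G S w) ∧
      ∃ r₀ : ℕ, ∀ r : ℕ, r₀ ≤ r → ∃ M₀ : ℕ, ∀ (N : ℤ) (M w : ℕ), M₀ ≤ M → 1 ≤ w →
        |N| ≤ (M : ℤ) ^ L → w ≤ M ^ L →
        ((Frac N M w ∩ High S r).ncard : ℝ) ≤ G S w / (A : ℝ) ^ r * M) ∧
    ∃ (r₀ : Surface → ℕ → ℕ → ℕ) (C : Surface → ℕ → ℕ → ℝ),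
      (∀ᵐ θ : ℝ, ∀ S : Surface, S.Ok → 0 < S.n → AtInfinity S → ∀ w : ℕ, 1 ≤ w → ∀ b : ℕ, 2 ≤ b →
        (∀ A : ℕ, 1 ≤ A → ∀ r : ℕ, r₀ S w A ≤ r → ∀ᶠ x : ℕ in atTop,
          ∑ m ∈ (Icc 1 x).filter (fun m => S.Smooth (pt θ b m w) ∧ r ≤ total S (pt θ b m w)),
            1 / (m : ℝ) ≤ Real.log x / (A : ℝ) ^ r) ∧
        (∀ g : ℕ → ℝ, Tendsto g atTop atTop → ∀ ε : ℝ, 0 < ε → ∀ᶠ x : ℕ in atTop,
          ∑ m ∈ (Icc 1 x).filter (fun m => S.Smooth (pt θ b m w) ∧ g m < total S (pt θ b m w)),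
            1 / (m : ℝ) ≤ ε * Real.log x) ∧
        ∀ A : ℕ, 1 ≤ A →
          (∀ ε : ℝ, 0 < ε → ∀ᶠ x : ℕ in atTop,
            ∑ m ∈ (Icc 1 x).filter (fun m => pt θ b m w ∈ Z S A), 1 / (m : ℝ) ≤
              ε * Real.log x) ∧
          ∀ᶠ x : ℕ in atTop,
            ∑ m ∈ (Icc 1 x).filter (fun m => S.Smooth (pt θ b m w) ∧ ¬ pt θ b m w ∈ Z S A),
              (A : ℝ) ^ total S (pt θ b m w) / (m : ℝ) ≤ C S w A * Real.log x) ∧
      ∀ n : ℕ → ℕ, 1 ≤ n 0 → (∀ i, 2 * n i ≤ n (i + 1)) →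
        ∀ᵐ θ : ℝ, ∀ S : Surface, S.Ok → 0 < S.n → AtInfinity S → ∀ w : ℕ, 1 ≤ w →
        ∀ b : ℕ, 2 ≤ b →
        (∀ A : ℕ, 1 ≤ A → ∀ r : ℕ, r₀ S w A ≤ r → ∀ᶠ J : ℕ in atTop,
          (((range J).filter (fun i => S.Smooth (pt θ b (n i) w) ∧
            r ≤ total S (pt θ b (n i) w))).card : ℝ) ≤ J / (A : ℝ) ^ r) ∧
        (∀ g : ℕ → ℝ, Tendsto g atTop atTop → ∀ ε : ℝ, 0 < ε → ∀ᶠ J : ℕ in atTop,
          (((range J).filter (fun i => S.Smooth (pt θ b (n i) w) ∧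
            g i < total S (pt θ b (n i) w))).card : ℝ) ≤ ε * J) ∧
        ∀ A : ℕ, 1 ≤ A →
          (∀ ε : ℝ, 0 < ε → ∀ᶠ J : ℕ in atTop,
            (((range J).filter (fun i => pt θ b (n i) w ∈ Z S A)).card : ℝ) ≤ ε * J) ∧
          ∀ᶠ J : ℕ in atTop,
            ∑ i ∈ (range J).filter (fun i => S.Smooth (pt θ b (n i) w) ∧
              ¬ pt θ b (n i) w ∈ Z S A), (A : ℝ) ^ total S (pt θ b (n i) w) ≤ C S w A * J := by
  choose r₀ C hH using ht
  refine ⟨ZZ, fun S hS hn hi A hA L => ⟨fun ε hε => ?_, ?_, ?_⟩, r₀, fun S w A => C S w A + 1, ?_,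
    fun n h0 hn => ?_⟩
  · obtain ⟨M0, hM0⟩ := zed hS hn hi hA L hε
    refine ⟨M0, fun N M w hM hN hw => ?_⟩
    rw [ncard_frac]
    exact hM0 N M w hM hN hw
  · obtain ⟨C, -, hC⟩ := mom hS hn hi hA L
    refine ⟨C, fun N M w hM hw hN hwL => ?_⟩
    refine (sum_frac N M w _ _ (mo S A (ZZ S A)) (mo_nonneg S A (ZZ S A)) fun t ht => ?_).trans
      (hC N M w hM hw hN hwL).1
    have e : mo S A (ZZ S A) t = (A : ℝ) ^ total S t := if_pos ht
    rw [e]
  · obtain ⟨r0, hr0⟩ := tails hS hn hi hA L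
    refine ⟨r0, fun r hr => ?_⟩
    obtain ⟨M0, hM0⟩ := hr0 r hr
    refine ⟨M0, fun N M w hM hw hN hwL => ?_⟩
    rw [ncard_frac]
    exact hM0 N M w hM hw hN hwL
  · rw [ae_all_iff]
    intro S
    by_cases hS : S.Ok ∧ 0 < S.n ∧ AtInfinity S
    swap
    · exact Eventually.of_forall fun θ h1 h2 h3 => absurd ⟨h1, h2, h3⟩ hS
    obtain ⟨h1, h2, h3⟩ := hS
    simp only [h1, h2, h3, forall_true_left]
    rw [ae_all_iff]
    intro w
    by_cases hw : 1 ≤ w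
    swap
    · exact Eventually.of_forall fun θ h => absurd h hw
    filter_upwards [Pool.Agent.T6.H39.FL.logs (hH S w h1 h2 h3 hw)] with θ hθ _ b hb
    exact hθ b hb
  · rw [ae_all_iff]
    intro S
    by_cases hS : S.Ok ∧ 0 < S.n ∧ AtInfinity S
    swap
    · exact Eventually.of_forall fun θ h1 h2 h3 => absurd ⟨h1, h2, h3⟩ hS
    obtain ⟨h1, h2, h3⟩ := hS
    simp only [h1, h2, h3, forall_true_left]
    rw [ae_all_iff]
    intro w
    by_cases hw : 1 ≤ w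
    swap
    · exact Eventually.of_forall fun θ h => absurd h hw
    filter_upwards [Pool.Agent.T6.H39.FL.seqs (hH S w h1 h2 h3 hw) n h0 hn] with θ hθ _ b hb
    exact hθ b hb

end Pool.Agent.Results.MP_788af2_nt.FixedDenominators
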